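import Pool.Agent.U345.ConvLL
import Pool.Agent.U345.SmoothO

/-!
# Beilinson's conjecture at the centre: the Brownian law for random varieties of odd dimension with given cycles

Let `V` be a smooth projective variety over `ℚ` of dimension `2 m + 1` and `a_p` the trace of Frobenius on `H^{2m+1}(V)`. The main part of the logarithm of
the partial Euler product of `L(H^{2m+1}(V), s)` over `p ≤ Y` at the central point `s = m + 1` is `∑_{p ≤ Y} a_p / p^(m+1)`, and a zero of
order `R` at the central point corresponds to a mean value `- R` of `a_p / p^m`. Beilinson's conjecture predicts `R = rank CH^{m+1}(V)_0`.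

**Hypersurfaces through linear subspaces.** Let `a_1, …, a_r` be different integers, `L_k` the linear subspaces `x = a_k y`, `z = 0` of dimension `m` of
`P^{2m+2}` (coordinates `x_0, …, x_m, y_0, …, y_m, z`); they are pairwise disjoint. The forms of degree `δ`

`F_t = ∑_{i,j} (x_i y_j - x_j y_i) h_{ij} + ∑_i (∏_k (x_i - a_k y_i)) h_i + z h`,    `h_{ij}`, `h_i`, `h` forms with the coefficients `t`,

vanish on all `L_k`; so the `r` classes `δ L_k - (linear section)` are homologically trivial cycles of dimension `m` on `V_t : F_t = 0`, and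
one expects that they generate a subgroup of rank `r` of finite index in `CH^{m+1}(V_t)_0` for a general `V_t`. (For `m = 0` these are the
plane curves of degree `δ` through `r` given rational points.) For `δ ≥ 5`, `δ ≥ r + 3`, `t` an integer vector equidistributed in a large box,
it is proved, unconditionally:

* `V_t` is smooth for all `t` of the box except for a proportion `O(1 / T)`, `T` the smallest side of the box;
* on the scale of `log log` the sums `- ∑_{p ≤ Y} a_p(V_t) / p^(m+1)` grow like `r log log Y`, with the fluctuations of a Brownian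
  motion: the processes

  `s ↦ (log log X)^(-1/2) ∑_{p ≤ exp((log X)^s)} (- a_p(V_t) / p^(m+1) - r / p)`,   `0 ≤ s ≤ 1`,

  converge for `X → ∞` to the standard Brownian motion, if the sides are larger than a power of `X`: the finite dimensional
  distributions converge, and the processes are tight. (Here `∑_{p ≤ Y} r / p = r log log Y + O(1)`, and `log log Y = s log log X`.)

So for random `V_t` and the primes up to a small power of the coefficients the known cycles are seen, with the right multiplicity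
`r`, in the size of the partial Euler products at the central point.

**Linear systems.** The same is true for `V_t = W ∩ {∑_j g_j h_j = 0}`, `W` a subscheme of `P^n` of dimension `2 m + 2` with about `p^(2m+2)` points modulo
`p`, with base scheme `B = W ∩ {g_j = 0 for all j}`, if `- a_p - r p^m` is replaced by `#V_t(F_p) - c_p`, `c_p` an approximation
of `#B(F_p) + (#W(F_p) - #B(F_p)) / p` with an error `O(p^(m - 1/2))`.

Proof. The values of forms of degree at least `3` at four points are independent; so the first four moments of `#V_t(F_p)` are near those of a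
normal variable, and its mean is exactly `#B(F_p) + (#W(F_p) - #B(F_p)) / p` (library `Q285.HS`). The theorem of Lindeberg type of the same library
gives the finite dimensional distributions. New here: the limit theorem on the scale of `log log` (`U345.LL`), the tightness, by a
maximal inequality for fourth moments (`U345.Four`, `U345.Max`, `U345.Tight`); the base scheme and the smooth members (`U345.LinesO`, `U345.SmoothO`).
-/

set_option autoImplicit false

namespace Pool.Agent.Results.MP_6dc9d1_nt.CentralSumsBrownian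

open Finset MeasureTheory ProbabilityTheory MvPolynomial
open Pool.Agent.Y722.HS (Mon form IsSmooth)
open scoped LinearAlgebra.Projectivization NNReal

/-- The number of the points of `P ^ n` over the field with `p` elements at which all forms in `S` vanish. -/
noncomputable def points {n : ℕ} (p : ℕ) (S : Set (MvPolynomial (Fin (n + 1)) ℤ)) : ℕ :=
  open scoped Classical in
  if h : p.Prime then
    haveI : Fact p.Prime := ⟨h⟩
    Nat.card {P : ℙ (ZMod p) (Fin (n + 1) → ZMod p) // ∀ G ∈ S, aeval P.rep G = 0}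
  else 0

/-- The form `∑_j g_j h_j`, where `h_j` is the form of degree `d_j` with the coefficients `t (j, ·)`. -/
noncomputable def member {n : ℕ} {J : Type} [Fintype J] {d : J → ℕ} (g : J → MvPolynomial (Fin (n + 1)) ℤ) (t : (Σ j : J, Mon n (d j)) → ℤ) :
    MvPolynomial (Fin (n + 1)) ℤ :=
  ∑ j, g j * form fun ν => t ⟨j, ν⟩

/-- The integer vectors `t` with `N i ≤ t i < N i + L i`. -/
noncomputable def box {κ : Type} [Fintype κ] [DecidableEq κ] (N : κ → ℤ) (L : κ → ℕ) : Finset (κ → ℤ) :=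
  Fintype.piFinset fun i => Ico (N i) (N i + L i)

/-- The sum `(log log X) ^ (-1 / 2) ∑_{p ≤ exp((log X)^s)} z_p` over primes. -/
noncomputable def path (z : ℕ → ℝ) (X : ℕ) (s : ℝ≥0) : ℝ :=
  (∑ p ∈ (Icc 1 ⌊Real.exp (Real.log X ^ (s : ℝ))⌋₊).filter Nat.Prime, z p) / √(Real.log (Real.log X))

/-- The probability that `B(τ) ≤ x(τ)` for all `τ` in the finite set `I`, for a standard Brownian motion `B`. -/
noncomputable def brownian (I : Finset ℝ≥0) (x : I → ℝ) : ℝ := (BrownianReal.projectiveFamily I).real (Set.Iic x)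

/-- For `t` equidistributed in boxes with sides at least `X ^ X₁` the processes `s ↦ path (z t) X s`, `0 ≤ s ≤ 1`, converge in law to the standard
Brownian motion: the finite dimensional distributions converge, and for every `ε` there is a `δ` such that, except for a proportion `ε` of
the `t`, the process varies by at most `ε` on intervals of length `δ`, for all large `X`. -/
def ConvergesToBrownian {κ : Type} [Fintype κ] [DecidableEq κ] (z : (κ → ℤ) → ℕ → ℝ) : Prop :=
  (∀ I : Finset ℝ≥0, (∀ s ∈ I, 0 < s ∧ s ≤ 1) → ∀ (x : I → ℝ) (ε : ℝ), 0 < ε → ∃ X₁ : ℕ, ∀ X : ℕ, X₁ ≤ X →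
    ∀ (N : κ → ℤ) (L : κ → ℕ), (∀ i, (X : ℝ) ^ X₁ ≤ L i) →
      |({t ∈ (box N L : Set (κ → ℤ)) | ∀ s : I, path (z t) X s ≤ x s}.ncard : ℝ) / ∏ i, (L i : ℝ) - brownian I x| ≤ ε) ∧
  ∀ ε : ℝ, 0 < ε → ∃ δ : ℝ, 0 < δ ∧ ∃ X₁ : ℕ, ∀ X : ℕ, X₁ ≤ X →
    ∀ (N : κ → ℤ) (L : κ → ℕ), (∀ i, (X : ℝ) ^ X₁ ≤ L i) →
      ({t ∈ (box N L : Set (κ → ℤ)) | ∃ σ τ : ℝ≥0, σ ≤ τ ∧ τ ≤ 1 ∧ (τ : ℝ) - σ ≤ δ ∧
        ε < |path (z t) X τ - path (z t) X σ|}.ncard : ℝ) ≤ ε * ∏ i, (L i : ℝ)

/-- The number `(#V(F_p) - ∑_{j ≤ 2m+1} p^j) / p^(m+1)`, `V` the hypersurface `F = 0` in `P^{2m+2}`. If `V` is smooth modulo `p` it is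
`- a_p / p^(m+1)`, `a_p` the trace of Frobenius on `H^{2m+1}(V)`. -/
noncomputable def centralTerm (m : ℕ) (F : MvPolynomial (Fin (2 * m + 2 + 1)) ℤ) (p : ℕ) : ℝ :=
  ((points p {F} : ℝ) - ∑ j ∈ range (2 * m + 2), (p : ℝ) ^ j) / (p : ℝ) ^ (m + 1)

/-- The index of the coordinate `x_i`. -/
def xi {m : ℕ} (i : Fin (m + 1)) : Fin (2 * m + 2 + 1) := ⟨i, by omega⟩

/-- The index of the coordinate `y_i`. -/
def yi {m : ℕ} (i : Fin (m + 1)) : Fin (2 * m + 2 + 1) := ⟨m + 1 + i, by omega⟩

/-- The index of the coordinate `z`. -/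
def zi (m : ℕ) : Fin (2 * m + 2 + 1) := ⟨2 * m + 2, by omega⟩

/-- The point `(b y, y, 0)`. -/
def onLine {m : ℕ} (b : ℂ) (y : Fin (m + 1) → ℂ) (l : Fin (2 * m + 2 + 1)) : ℂ :=
  if h : l.1 < m + 1 then b * y ⟨l.1, h⟩ else if h' : l.1 < 2 * m + 2 then y ⟨l.1 - (m + 1), by omega⟩ else 0

/-- The forms `x_i y_j - x_j y_i`, `∏_k (x_i - a_k y_i)` and `z`. -/
noncomputable def gens (m : ℕ) {r : ℕ} (a : Fin r → ℤ) : (Fin (m + 1) × Fin (m + 1)) ⊕ (Fin (m + 1) ⊕ Unit) → MvPolynomial (Fin (2 * m + 2 + 1)) ℤ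
  | Sum.inl (i, j) => X (xi i) * X (yi j) - X (xi j) * X (yi i)
  | Sum.inr (Sum.inl i) => ∏ k, (X (xi i) - C (a k) * X (yi i))
  | Sum.inr (Sum.inr _) => X (zi m)

/-- The degrees `δ - 2`, `δ - r` and `δ - 1`. -/
def degs (m r δ : ℕ) : (Fin (m + 1) × Fin (m + 1)) ⊕ (Fin (m + 1) ⊕ Unit) → ℕ
  | Sum.inl _ => δ - 2
  | Sum.inr (Sum.inl _) => δ - r
  | Sum.inr (Sum.inr _) => δ - 1

/-- For all primes `p ≥ p₀`: `W` has `p^(2m+2) + O(p^(2m+3/2))` points modulo `p`, the base scheme `B = W ∩ {g_j = 0 for all j}` has `O(p^(2m+3/2))` points, and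
`c_p = #B(F_p) + (#W(F_p) - #B(F_p)) / p + O(p^(m-1/2))`, with the constant `C₀`. -/
def Admissible {n : ℕ} {J : Type} (m p₀ : ℕ) (C₀ : ℝ) (g : J → MvPolynomial (Fin (n + 1)) ℤ) (W : Set (MvPolynomial (Fin (n + 1)) ℤ)) (c : ℕ → ℝ) : Prop :=
  ∀ p : ℕ, p.Prime → p₀ ≤ p → |(points p W : ℝ) - (p : ℝ) ^ (2 * m + 2)| ≤ C₀ * ((p : ℝ) ^ (2 * m + 2) / √p) ∧
    (points p (W ∪ Set.range g) : ℝ) ≤ C₀ * ((p : ℝ) ^ (2 * m + 2) / √p) ∧
    |(points p (W ∪ Set.range g) : ℝ) + ((points p W : ℝ) - points p (W ∪ Set.range g)) / p - c p| ≤ C₀ * ((p : ℝ) ^ m / √p)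

/-- In boxes with sides at least `T` the hypersurface `F t = 0` is smooth for all `t` except for a proportion `O(1 / T)`. -/
def MostlySmooth {n : ℕ} {κ : Type} [Fintype κ] [DecidableEq κ] (F : (κ → ℤ) → MvPolynomial (Fin (n + 1)) ℤ) : Prop :=
  ∃ C : ℝ, ∀ (N : κ → ℤ) (L : κ → ℕ) (T : ℝ), 0 < T → (∀ i, T ≤ L i) →
    ({t ∈ (box N L : Set (κ → ℤ)) | ¬ IsSmooth (map (Int.castRingHom ℂ) (F t))}.ncard : ℝ) ≤ C / T * ∏ i, (L i : ℝ)

lemma gens_eq (m : ℕ) {r : ℕ} (a : Fin r → ℤ) : gens m a = U345O.gens m a := by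
  funext j
  rcases j with ⟨i, j⟩ | i | u <;> rfl

lemma degs_eq (m r δ : ℕ) : degs m r δ = U345O.degs m r δ := by
  funext j
  rcases j with ⟨i, j⟩ | i | u <;> rfl

/-- **Part 1.** Members of linear systems on `W`. -/
theorem systems {n : ℕ} {J : Type} [Fintype J] [DecidableEq J] (d : J → ℕ) (g : J → MvPolynomial (Fin (n + 1)) ℤ)
    (W : Set (MvPolynomial (Fin (n + 1)) ℤ)) (m p₀ : ℕ) (hd : ∀ j, 3 ≤ d j) (C₀ : ℝ)
    (hW : ∀ p : ℕ, p.Prime → p₀ ≤ p → |(points p W : ℝ) - (p : ℝ) ^ (2 * m + 2)| ≤ C₀ * ((p : ℝ) ^ (2 * m + 2) / √p))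
    (hB : ∀ p : ℕ, p.Prime → p₀ ≤ p → (points p (W ∪ Set.range g) : ℝ) ≤ C₀ * ((p : ℝ) ^ (2 * m + 2) / √p)) (c : ℕ → ℝ)
    (hc : ∀ p : ℕ, p.Prime → p₀ ≤ p → |(points p (W ∪ Set.range g) : ℝ) + ((points p W : ℝ) - points p (W ∪ Set.range g)) / p - c p| ≤
      C₀ * ((p : ℝ) ^ m / √p)) :
    ConvergesToBrownian fun (t : (Σ j : J, Mon n (d j)) → ℤ) p => ((points p (W ∪ {member g t}) : ℝ) - c p) / (p : ℝ) ^ (m + 1) := by
  have hsz : Q285HS.Sz g W (2 * m + 2) p₀ C₀ := ⟨hW, hB⟩
  exact U345T.sys_ll hd hsz c hc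

/-- **Part 2.** Hypersurfaces through linear subspaces. -/
theorem lines (m r δ : ℕ) (a : Fin r → ℤ) (ha : Function.Injective a) (hδ : 5 ≤ δ) (hr : r + 3 ≤ δ) :
    ConvergesToBrownian fun (t : (Σ j, Mon (2 * m + 2) (degs m r δ j)) → ℤ) p => centralTerm m (member (gens m a) t) p - r / p := by
  classical
  obtain ⟨A, hA⟩ : ∃ A : ℕ, A = ∑ k, (a k).natAbs := ⟨_, rfl⟩
  obtain ⟨C₀, hC₀⟩ : ∃ C₀ : ℝ, C₀ = 2 + (r + 1) * (m + 1) := ⟨_, rfl⟩
  have hr0 : (0 : ℝ) ≤ r := Nat.cast_nonneg r
  have hm0 : (0 : ℝ) ≤ m := Nat.cast_nonneg m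
  have hsz := Q285HS.sz_proj (n := 2 * m + 2) (by omega)
  have hcast : ∀ p : ℕ, 2 * A + 2 ≤ p → Function.Injective fun k => (a k : ZMod p) := by
    intro p hp k l hkl
    refine ha ?_
    have h1 : (p : ℤ) ∣ a l - a k := (ZMod.intCast_eq_intCast_iff_dvd_sub _ _ _).1 hkl
    have h2 : (a k).natAbs ≤ A := by
      rw [hA]
      exact single_le_sum (f := fun k => (a k).natAbs) (fun i _ => Nat.zero_le _) (mem_univ k)
    have h3 : (a l).natAbs ≤ A := by
      rw [hA]
      exact single_le_sum (f := fun k => (a k).natAbs) (fun i _ => Nat.zero_le _) (mem_univ l)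
    have h4 := Int.eq_zero_of_abs_lt_dvd h1 (by
      have h5 : |a l - a k| ≤ |a l| + |a k| := abs_sub _ _
      have h6 : |a k| = ((a k).natAbs : ℤ) := (Int.natCast_natAbs _).symm
      have h7 : |a l| = ((a l).natAbs : ℤ) := (Int.natCast_natAbs _).symm
      omega)
    omega
  have hbase : ∀ p : ℕ, p.Prime → 2 * A + 2 ≤ p → points p (∅ ∪ Set.range (gens m a)) = r * ∑ i ∈ range (m + 1), p ^ i := by
    intro p hp hpA
    have : Fact p.Prime := ⟨hp⟩
    rw [gens_eq]
    exact U345O.points_gens a p (hcast p hpA)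
  have hproj : ∀ p : ℕ, p.Prime → points (n := 2 * m + 2) p ∅ = ∑ i ∈ range (2 * m + 2 + 1), p ^ i := fun p hp =>
    Q285HS.points_empty p hp
  have h := systems (degs m r δ) (gens m a) ∅ m (2 * A + 2) (fun j => by
      rcases j with j | j | j
      · show 3 ≤ δ - 2
        omega
      · show 3 ≤ δ - r
        omega
      · show 3 ≤ δ - 1
        omega) C₀ (fun p hp hpA => by
      refine (hsz.amb p hp hp.two_le).trans (mul_le_mul_of_nonneg_right ?_ (by positivity))
      rw [hC₀]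
      have : 0 ≤ ((r : ℝ) + 1) * (m + 1) := by positivity
      linarith) (fun p hp hpA => by
      have hp0 : (0 : ℝ) < p := by exact_mod_cast hp.pos
      have hp1 : (1 : ℝ) ≤ p := by exact_mod_cast hp.one_lt.le
      have hs0 : 0 < √(p : ℝ) := Real.sqrt_pos.2 hp0
      rw [hbase p hp hpA]
      push_cast
      have h1 : ∑ i ∈ range (m + 1), (p : ℝ) ^ i ≤ (m + 1) * (p : ℝ) ^ m := by
        have h2 : ∑ i ∈ range (m + 1), (p : ℝ) ^ i ≤ ∑ _i ∈ range (m + 1), (p : ℝ) ^ m :=
          sum_le_sum fun i hi => pow_le_pow_right₀ hp1 (by have := mem_range.1 hi; omega)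
        rw [sum_const, card_range, nsmul_eq_mul] at h2
        push_cast at h2
        exact h2
      have h2 : (p : ℝ) ^ m ≤ (p : ℝ) ^ (2 * m + 2) / √p := by
        rw [le_div_iff₀ hs0]
        have h3 : √(p : ℝ) ≤ p := by
          rw [Real.sqrt_le_left hp0.le]
          nlinarith
        calc (p : ℝ) ^ m * √p ≤ (p : ℝ) ^ m * p := mul_le_mul_of_nonneg_left h3 (by positivity)
          _ = (p : ℝ) ^ (m + 1) := (pow_succ _ _).symm
          _ ≤ _ := pow_le_pow_right₀ hp1 (by omega)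
      have h3 : 0 ≤ (p : ℝ) ^ m := by positivity
      calc (r : ℝ) * ∑ i ∈ range (m + 1), (p : ℝ) ^ i ≤ r * ((m + 1) * (p : ℝ) ^ m) := mul_le_mul_of_nonneg_left h1 hr0
        _ = (r * (m + 1)) * (p : ℝ) ^ m := by ring
        _ ≤ C₀ * (p : ℝ) ^ m := by
            refine mul_le_mul_of_nonneg_right ?_ h3
            rw [hC₀]
            nlinarith
        _ ≤ _ := mul_le_mul_of_nonneg_left h2 (by rw [hC₀]; positivity)) (fun p => ∑ i ∈ range (2 * m + 2), (p : ℝ) ^ i + r * (p : ℝ) ^ m)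
      (fun p hp hpA => by
      have hp0 : (0 : ℝ) < p := by exact_mod_cast hp.pos
      have hp1 : (1 : ℝ) ≤ p := by exact_mod_cast hp.one_lt.le
      have hs0 : 0 < √(p : ℝ) := Real.sqrt_pos.2 hp0
      rw [hbase p hp hpA, hproj p hp]
      push_cast
      have h1 : ∑ i ∈ range (2 * m + 2 + 1), (p : ℝ) ^ i = (∑ i ∈ range (2 * m + 2), (p : ℝ) ^ i) * p + 1 := by
        rw [sum_range_succ', sum_mul, pow_zero]
        congr 1
      have h2 := geom_sum_mul (p : ℝ) (m + 1)
      rw [h1]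
      obtain ⟨G, hG⟩ : ∃ G : ℝ, G = ∑ i ∈ range (m + 1), (p : ℝ) ^ i := ⟨_, rfl⟩
      obtain ⟨S, hS⟩ : ∃ S : ℝ, S = ∑ i ∈ range (2 * m + 2), (p : ℝ) ^ i := ⟨_, rfl⟩
      rw [← hG] at h2 ⊢
      rw [← hS]
      have h3 : (r : ℝ) * G + ((S * p + 1) - r * G) / p - (S + r * (p : ℝ) ^ m) = (1 - r) / p := by
        have h4 : G * p = (p : ℝ) ^ m * p + G - 1 := by
          rw [pow_succ] at h2
          linarith
        field_simp
        linear_combination (r : ℝ) * h4
      rw [h3, abs_div, abs_of_pos hp0]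
      have h4 : |1 - (r : ℝ)| ≤ C₀ := by
        rw [abs_le, hC₀]
        constructor <;> nlinarith
      have h5 : 1 / (p : ℝ) ≤ (p : ℝ) ^ m / √p := by
        rw [div_le_div_iff₀ hp0 hs0, one_mul]
        have h6 : √(p : ℝ) ≤ p := by
          rw [Real.sqrt_le_left hp0.le]
          nlinarith
        have h7 : (1 : ℝ) ≤ (p : ℝ) ^ m := one_le_pow₀ hp1
        nlinarith
      calc |1 - (r : ℝ)| / p = |1 - (r : ℝ)| * (1 / p) := by ring
        _ ≤ C₀ * ((p : ℝ) ^ m / √p) := mul_le_mul h4 h5 (by positivity) (by rw [hC₀]; positivity))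
  -- only the primes matter
  have hpath : ∀ (u v : ℕ → ℝ), (∀ p : ℕ, p.Prime → u p = v p) → path u = path v := by
    intro u v huv
    funext X s
    unfold path
    congr 1
    exact sum_congr rfl fun p hp => huv p (mem_filter.1 hp).2
  have hpath' : ∀ t : (Σ j, Mon (2 * m + 2) (degs m r δ j)) → ℤ,
      path (fun p => ((points p (∅ ∪ {member (gens m a) t}) : ℝ) - (∑ i ∈ range (2 * m + 2), (p : ℝ) ^ i + r * (p : ℝ) ^ m)) / (p : ℝ) ^ (m + 1)) =
      path fun p => centralTerm m (member (gens m a) t) p - r / p := fun t => hpath _ _ fun p hp => by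
    have hp0 : (0 : ℝ) < p := by exact_mod_cast hp.pos
    have hpm : (p : ℝ) ^ m ≠ 0 := by positivity
    unfold centralTerm
    rw [Set.empty_union, pow_succ]
    field_simp
    ring
  unfold ConvergesToBrownian at h ⊢
  simp only [hpath'] at h
  exact h

/-- The linear subspaces lie on all members. -/
theorem contains (m r δ : ℕ) (a : Fin r → ℤ) (t : (Σ j, Mon (2 * m + 2) (degs m r δ j)) → ℤ) (k : Fin r) (y : Fin (m + 1) → ℂ) :
    eval (onLine (a k) y) (map (Int.castRingHom ℂ) (member (gens m a) t)) = 0 := by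
  have hx : ∀ i : Fin (m + 1), onLine (a k : ℂ) y (xi i) = a k * y i := by
    intro i
    have h : (xi i).1 < m + 1 := i.2
    unfold onLine
    rw [dif_pos h]
    rfl
  have hy : ∀ i : Fin (m + 1), onLine (a k : ℂ) y (yi i) = y i := by
    intro i
    have h : ¬ (yi i).1 < m + 1 := by
      unfold yi
      simp only
      omega
    have h' : (yi i).1 < 2 * m + 2 := by
      unfold yi
      simp only
      omega
    unfold onLine
    rw [dif_neg h, dif_pos h']
    congr 1
    refine Fin.ext ?_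
    unfold yi
    simp only
    omega
  have hz : onLine (a k : ℂ) y (zi m) = 0 := by
    have h : ¬ (zi m).1 < m + 1 := by
      unfold zi
      simp only
      omega
    have h' : ¬ (zi m).1 < 2 * m + 2 := by
      unfold zi
      simp only
      omega
    unfold onLine
    rw [dif_neg h, dif_neg h']
  unfold member
  rw [map_sum, map_sum]
  refine sum_eq_zero fun j _ => ?_
  rw [map_mul, map_mul]
  refine mul_eq_zero_of_left ?_ _
  rcases j with ⟨i, j⟩ | i | u
  · unfold gens
    simp only [map_sub, map_mul, map_X, eval_X]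
    rw [hx, hx, hy, hy]
    ring
  · unfold gens
    rw [map_prod, map_prod]
    refine prod_eq_zero (mem_univ k) ?_
    simp only [map_sub, map_mul, map_X, map_C, eval_X, eval_C]
    rw [hx, hy]
    simp
  · unfold gens
    rw [map_X, eval_X, hz]

/-- **Beilinson's conjecture at the centre: Brownian law for random varieties of odd dimension with given cycles.** -/
theorem result :
    -- members `V_t = W ∩ {∑ g_j h_j = 0}` of linear systems, `dim W = 2 m + 2`
    (∀ (n : ℕ) (J : Type) [Fintype J] [DecidableEq J] (d : J → ℕ) (g : J → MvPolynomial (Fin (n + 1)) ℤ)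
      (W : Set (MvPolynomial (Fin (n + 1)) ℤ)) (m p₀ : ℕ) (C₀ : ℝ) (c : ℕ → ℝ), (∀ j, 3 ≤ d j) → Admissible m p₀ C₀ g W c →
      ConvergesToBrownian fun (t : (Σ j : J, Mon n (d j)) → ℤ) p => ((points p (W ∪ {member g t}) : ℝ) - c p) / (p : ℝ) ^ (m + 1)) ∧
    -- hypersurfaces of degree `δ` in `P^{2m+2}` through the `r` linear subspaces `x = a_k y`, `z = 0` of dimension `m`
    (∀ (m r δ : ℕ) (a : Fin r → ℤ), Function.Injective a → 5 ≤ δ → r + 3 ≤ δ →
      (∀ (t : (Σ j, Mon (2 * m + 2) (degs m r δ j)) → ℤ) (k : Fin r) (y : Fin (m + 1) → ℂ),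
        eval (onLine (a k) y) (map (Int.castRingHom ℂ) (member (gens m a) t)) = 0) ∧
      MostlySmooth (fun t : (Σ j, Mon (2 * m + 2) (degs m r δ j)) → ℤ => member (gens m a) t) ∧
      ConvergesToBrownian fun (t : (Σ j, Mon (2 * m + 2) (degs m r δ j)) → ℤ) p => centralTerm m (member (gens m a) t) p - r / p) := by
  refine ⟨fun n J _ _ d g W m p₀ C₀ c hd h => systems d g W m p₀ hd C₀ (fun p hp hpp => (h p hp hpp).1) (fun p hp hpp => (h p hp hpp).2.1) c
      fun p hp hpp => (h p hp hpp).2.2,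
    fun m r δ a ha hδ hr => ⟨contains m r δ a, ?_, lines m r δ a ha hδ hr⟩⟩
  classical
  rw [gens_eq, degs_eq]
  obtain ⟨D, _, hD⟩ := U345O.smooth_count (m := m) a ha δ (by omega) (by omega)
  refine ⟨D, fun N L T hT hL => ?_⟩
  have h := hD N L T hT hL ((Q282.GK.kbox N L).filter fun t => ¬ IsSmooth (map (Int.castRingHom ℂ) (Q285HS.fam (U345O.gens m a) t)))
    (filter_subset _ _) fun t ht => (mem_filter.1 ht).2
  refine le_trans (le_of_eq ?_) h
  rw [← Set.ncard_coe_finset, coe_filter]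
  rfl

end Pool.Agent.Results.MP_6dc9d1_nt.CentralSumsBrownian
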