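import Pool.Agent.R430.T1
import Pool.Agent.U374.BK.Part
import Pool.Agent.U374.Cub.Lf

/-!
# Beilinson's conjecture on ranks for the Fermat cubic curve, threefold and fivefold over nonabelian
# towers: the multiquadratic extensions of every quadratic extension of `ℚ(√-3)` with good
# ramification, and the fields below them

Call a prime of a number field good when `2` is not a cube modulo it.  Let `F = ℚ(√-3)`, let `N/F` be
ANY quadratic extension in which only good primes ramify (any class number; in general `N` is not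
Galois over `ℚ`), let `K/N` be any Galois extension of exponent two in which only good primes ramify
(or an abelian extension of degree `2 ^ n` with an Artin map whose modulus has only good prime
divisors), and let `k` be any field, real, complex or mixed, with `k(√-3) = K`, for example `k = K`.

Theorem: let `X` be the Fermat cubic `x_0³ + … + x_{n+1}³ = 0` of dimension `n = 2 i + 1`, `i = 0, 1, 2`.
The function `L(H^n(X / k), s)`, without the Euler factors at the places dividing `3`, extends to a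
meromorphic function on the plane, analytic and not zero at the centre `s = i + 1`, and the elliptic
curve `E : y² + y = x³` has finitely many points over `k`.

The intermediate Jacobian `J` of `X` (the Jacobian for `n = 1`) is isogenous to the product of
`1`, `5`, `21` copies of `E`, and `CH^{i+1}(X)_0 ⊗ ℚ = J(k) ⊗ ℚ` (Bloch and Murre for the threefold,
Collino and Paranjape for the fivefold); this is not formalized.  So both sides of Beilinson's
conjecture are `0` for `X` over all these `k`, for `i = 0, 1, 2`.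

The `L`-function is given by the numbers of points: for a place `v` of `k` not dividing `3` the
eigenvalues `α` of the Frobenius on `H^n(X)` (`2`, `10` and `42` for `n = 1, 3, 5`) are determined by
`#X(k') = 1 + q' + … + q'^n - ∑ α^r` for all the finite extensions `k'` of the residue field.

The earlier hand-ins on this problem treat `ℚ`, towers that are abelian over `ℚ` or generated by real
cube roots of primes; in `MP_32c55d_nt.QuadraticBaseRank` the field is of the kind above, and `X` is the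
curve `E`.  The central values and the 2-descent are from the starting library (`Pool.Agent.R430`,
`Pool.Agent.Y696`), the point counts over finite fields are those of `Pool/Agent/N883/DQ`.
-/

set_option autoImplicit false

namespace Pool.Agent.Results.MP_6dc9d1_nt.FermatCubicsNonabelian

open NumberField IsDedekindDomain Pool.Agent.Y696
open scoped Classical

/-- only primes modulo which `2` is not a cube ramify in `K/F`: if `σ ≠ 1` lies in the inertia group of
the prime `w` of `K`, then `2` is not a cube modulo the prime of `F` below `w` -/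
def GoodRam (F K : Type) [Field F] [NumberField F] [Field K] [NumberField K] [Algebra F K] : Prop :=
  ∀ (w : HeightOneSpectrum (𝓞 K)) (σ : Gal(K/F)), (∀ x : 𝓞 K, σ • x - x ∈ w.asIdeal) → σ ≠ 1 →
    ∀ α : 𝓞 F, α ^ 3 - 2 ∉ w.asIdeal.under (𝓞 F)

/-- `Φ` is an Artin map modulo the ideal `𝔪` of the Galois extension `K/F` (`F` has no real place): on
the non-zero ideals prime to `𝔪` it is multiplicative, it is trivial on the ideals `(α)` with
`α - 1 ∈ 𝔪`, `α ≠ 0`, the inertia groups of the primes of `K` not above a prime divisor of `𝔪` are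
trivial, and `Φ(𝔭)` acts as a Frobenius automorphism at the primes of `K` above `𝔭`, `𝔭 ∤ 𝔪` -/
structure ArtinMap {F K : Type} [Field F] [NumberField F] [Field K] [NumberField K] [Algebra F K]
    (𝔪 : Ideal (𝓞 F)) (Φ : Ideal (𝓞 F) → Gal(K/F)) : Prop where
  mul : ∀ I J : Ideal (𝓞 F), I ≠ ⊥ → J ≠ ⊥ → IsCoprime I 𝔪 → IsCoprime J 𝔪 → Φ (I * J) = Φ I * Φ J
  ray : ∀ α : 𝓞 F, α ≠ 0 → α - 1 ∈ 𝔪 → Φ (Ideal.span {α}) = 1
  unram : ∀ w : HeightOneSpectrum (𝓞 K), ¬ 𝔪 ≤ w.asIdeal.under (𝓞 F) →
    ∀ σ : Gal(K/F), (∀ x : 𝓞 K, σ • x - x ∈ w.asIdeal) → σ = 1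
  frob : ∀ w : HeightOneSpectrum (𝓞 K), ¬ 𝔪 ≤ w.asIdeal.under (𝓞 F) → ∀ x : 𝓞 K,
    Φ (w.asIdeal.under (𝓞 F)) • x - x ^ Nat.card (𝓞 F ⧸ w.asIdeal.under (𝓞 F)) ∈ w.asIdeal

/-- the hypothesis on `K/N`: its Galois group has exponent `2` and only good primes ramify, or it is
abelian of degree `2 ^ n` and has an Artin map modulo an ideal `𝔪 ≠ 0` with only good prime divisors -/
def Admissible (N K : Type) [Field N] [NumberField N] [Field K] [NumberField K] [Algebra N K] : Prop :=
  (GoodRam N K ∧ ∀ σ : Gal(K/N), σ * σ = 1) ∨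
    ((∃ n : ℕ, Module.finrank N K = 2 ^ n) ∧ (∀ σ τ : Gal(K/N), σ * τ = τ * σ) ∧
      ∃ 𝔪 : Ideal (𝓞 N), 𝔪 ≠ ⊥ ∧
        (∀ v : HeightOneSpectrum (𝓞 N), 𝔪 ≤ v.asIdeal → ∀ α : 𝓞 N, α ^ 3 - 2 ∉ v.asIdeal) ∧
        ∃ Φ : Ideal (𝓞 N) → Gal(K/N), ArtinMap 𝔪 Φ)

/-- The curve `E : y² + y = x³` over `k`. -/
def curve (k : Type) [Field k] : WeierstrassCurve k := ⟨0, 0, 1, 0, 0⟩

/-- The solutions, not all zero, of `∑ x i ^ 3 = 0` in `m` unknowns in the field `F`. -/
def solutions (m : ℕ) (F : Type) [Field F] : Set (Fin m → F) :=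
  {x | x ≠ 0 ∧ ∑ i, x i ^ 3 = 0}

section field

variable {k : Type} [Field k] [NumberField k]

/-- `A` is the multiset of the eigenvalues of the Frobenius at `v` on `H^n(X)`, `n = 2 i + 1`, for the
Fermat cubic `X` of dimension `n`: for every extension `F` of degree `r` of the residue field of `v` (`f`
is the reduction), with `q'` elements, the equation has `(q' - 1) (1 + q' + ... + q'^n - ∑ α^r)` nonzero
solutions in `F`. -/
def IsFrobenius (i : ℕ) (v : HeightOneSpectrum (𝓞 k)) (A : Multiset ℂ) : Prop :=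
  ∀ (F : Type) [Field F] [Finite F] (f : 𝓞 k →+* F) (r : ℕ), RingHom.ker f = v.asIdeal →
    Nat.card F = Ideal.absNorm v.asIdeal ^ r →
    ((solutions (2 * i + 3) F).ncard : ℂ) = (Nat.card F - 1) *
      (∑ j ∈ Finset.range (2 * i + 2), (Nat.card F : ℂ) ^ j - (A.map (fun α => α ^ r)).sum)

/-- `L` is meromorphic on the plane and equal for `Re s > i + 2` to the Euler product of
`L(H^n(X / k), s)`, `n = 2 i + 1`, over the places not dividing `3`.  At these places there are
`2 (2i+3 choose i)` eigenvalues of the Frobenius, of the absolute value `N(v)^(n / 2)`. -/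
def IsLFunction (k : Type) [Field k] [NumberField k] (i : ℕ) (L : ℂ → ℂ) : Prop :=
  MeromorphicOn L Set.univ ∧ ∃ A : HeightOneSpectrum (𝓞 k) → Multiset ℂ,
    (∀ v, (3 : 𝓞 k) ∉ v.asIdeal → IsFrobenius i v (A v) ∧ (A v).card = 2 * (2 * i + 3).choose i ∧
      ∀ α ∈ A v, ‖α‖ ^ 2 = (Ideal.absNorm v.asIdeal : ℝ) ^ (2 * i + 1)) ∧
    ∀ s : ℂ, (i + 2 : ℝ) < s.re →
      HasProd (fun v : {v : HeightOneSpectrum (𝓞 k) // (3 : 𝓞 k) ∉ v.asIdeal} =>
        ((A v.1).map (fun α => (1 - α * (Ideal.absNorm v.1.asIdeal : ℂ) ^ (-s))⁻¹)).prod) (L s)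

end field

/-- the Fermat hypersurfaces from the curve -/
theorem fermat {k : Type} [Field k] [NumberField k] {Λ : ℂ → ℂ}
    (hm : MeromorphicOn Λ Set.univ) (hs : ∀ s : ℂ, 2 < s.re → Λ s = (curve k).LSeries s)
    (ha : AnalyticAt ℂ Λ 1) (h1 : Λ 1 ≠ 0) {i : ℕ} (hi : i ≤ 2) :
    ∃ L : ℂ → ℂ, IsLFunction k i L ∧ AnalyticAt ℂ L (i + 1) ∧ L (i + 1) ≠ 0 := by
  have h30 : (3 : 𝓞 k) ≠ 0 := by norm_num
  have e1 : (curve k) = Pool.Agent.Y696.CTK.ED ((1 : 𝓞 k) : k) := rfl
  obtain ⟨L, b1, b2, b3, b4⟩ := Pool.Agent.U374.BK.partial_ED (B := (3 : 𝓞 k)) (D := 1) h30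
    (by rw [mul_one]) hm (by rw [← e1]; exact hs) ha h1
  have hone : ∀ v : HeightOneSpectrum (𝓞 k), (1 : 𝓞 k) ∉ v.asIdeal := fun v hv =>
    v.isPrime.ne_top (Ideal.eq_top_of_isUnit_mem _ hv isUnit_one)
  obtain ⟨Lf, ⟨c1, A, c2, c3⟩, c4, c5⟩ := Pool.Agent.U374.Cub.isLM_of (K := k) hi
    (a := fun _ => (1 : 𝓞 k)) (B := (3 : 𝓞 k)) (δ := 1) (fun v hv => hv) (fun v hv j => hone v)
    (fun T hT v hv => ⟨1, 1, hone v, hone v, by
      unfold Pool.Agent.N883.DQ.Dt
      rw [Finset.prod_const_one, Finset.prod_const_one]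
      ring⟩) b1 b2 b3 b4
  refine ⟨Lf, ⟨c1, A, fun v hv => ?_, c3⟩, c4, c5⟩
  obtain ⟨d1, d2, d3⟩ := c2 v hv
  refine ⟨fun F _ _ f r hf hF => ?_, d2, d3⟩
  have h5 := d1 F f r hf hF
  have h6 : Pool.Agent.U374.Cub.sols (fun _ : Fin (2 * i + 3) => f 1) = solutions (2 * i + 3) F := by
    ext x
    unfold Pool.Agent.U374.Cub.sols solutions
    simp only [map_one, one_mul]
  rw [h6] at h5
  exact h5

/-- **Main theorem.**  Let `F = ℚ(√-3)`, let `N/F` be a quadratic extension in which only good primes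
ramify, `K/N` an admissible Galois extension and `k` a number field with `k(√-3) = K`.  Then for the
Fermat cubics `X` of dimension `n = 2 i + 1`, `i = 0, 1, 2`, the `L`-function of `H^n(X / k)` is meromorphic
on the plane, analytic and not zero at `s = i + 1`, and `E(k)` is finite. -/
theorem result :
    ∀ (F N K k : Type) [Field F] [NumberField F] [IsCyclotomicExtension {3} ℚ F]
      [Field N] [NumberField N] [Algebra F N] [Field K] [NumberField K] [Algebra N K] [IsGalois N K]
      [Field k] [NumberField k] [Algebra k K],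
      Module.finrank F N = 2 → GoodRam F N → Admissible N K →
      (∃ a : K, a ^ 2 = -3 ∧ IntermediateField.adjoin k {a} = ⊤) →
      (∀ i : ℕ, i ≤ 2 → ∃ L : ℂ → ℂ, IsLFunction k i L ∧ AnalyticAt ℂ L (i + 1) ∧ L (i + 1) ≠ 0) ∧
      Finite (curve k).toAffine.Point := by
  intro F N K k _ _ _ _ _ _ _ _ _ _ _ _ _ h2 hg hcase hk
  have hyp : Pool.Agent.R430.Hyp N K := by
    rcases hcase with ⟨h3, h4⟩ | ⟨hn, hcomm, 𝔪, h𝔪, hgood, Φ, hΦ⟩
    · exact Or.inl ⟨h3, h4⟩
    · exact Or.inr ⟨hn, hcomm, 𝔪, h𝔪, hgood, Φ, hΦ.mul, hΦ.ray, hΦ.unram, hΦ.frob⟩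
  have h := Pool.Agent.R430.all_k h2 hg hyp hk
  obtain ⟨L, h3, h4, h5, h6, -⟩ := h.analytic
  exact ⟨fun i hi => fermat h3 (fun s hs => (h4 s (by linarith)).2) h5 h6 hi, h.finite⟩

end Pool.Agent.Results.MP_6dc9d1_nt.FermatCubicsNonabelian
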