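import Pool.Agent.Y18.LP.Main

/-!
# Elliptic curves of analytic rank zero over a positive proportion of the abelian fields in every
# family of prime power exponent

`E_i : y² = x³ + a_i x + b_i` (`i = 1, …, m`) are elliptic curves over `ℚ` with `L(E_i, 1) ≠ 0`, given
with their newforms, `l` is a prime and `n`, `r` are integers.  A prime `q` is admissible if
`q ∤ 2Δ_i` and `l ∤ #E_i(ℤ/q)` for all `i`.

Theorem: there is a number `V`, depending on the curves, `l`, `n` and `r` only, such that for every group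
`H` (finite or infinite, as sparse as one likes) of Dirichlet characters of order dividing `l ^ n` and of
squarefree conductors composed of admissible primes at most `2 ^ V` translates of the set of the good
`r`-tuples cover the set `H ^ r` of all `r`-tuples; so, if `H` is finite, at least `|H| ^ r / 2 ^ V` of
the `|H| ^ r` tuples are good.  A tuple `(χ_1, …, χ_r)` is good if for all number fields `F ⊂ ℂ`
contained in the abelian extension of `ℚ` attached to the group generated by `χ_1, …, χ_r` and for all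
`i` the Hasse-Weil `L`-function `L(E_i/F, s)` is entire and does not vanish at `s = 1`.

By Kato's theorem the groups `CH^1(E_i)_0 = E_i(F)` are then finite, so that Beilinson's conjecture
holds for the curves `X = E_i` over all these fields `F` (the case `i = 0` of the problem, both sides
being `0`).  The hypotheses hold for `X_0(11)`, that is `y² = x³ - 13392 x - 1080432`.
-/

set_option autoImplicit false

open Complex UpperHalfPlane MatrixGroups CongruenceSubgroup NumberField IsDedekindDomain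

namespace Pool.Agent.Results.MP_6dc9d1_nt.ProportionOfAbelianFields

/-- `N_p`: the number of pairs `(x, y) ∈ (ℤ/p)²` with `y² = x³ + a x + b`. -/
noncomputable def pointCount (a b : ℤ) (p : ℕ) : ℕ :=
  Nat.card {q : ZMod p × ZMod p // q.2 ^ 2 = q.1 ^ 3 + (a : ZMod p) * q.1 + (b : ZMod p)}

/-- `p` is a prime not dividing `2 Δ`, `Δ = -4 a³ - 27 b²`. -/
def GoodPrime (a b : ℤ) (p : ℕ) : Prop :=
  p.Prime ∧ ¬ ((p : ℤ) ∣ 2 * (-4 * a ^ 3 - 27 * b ^ 2))

open Classical in
/-- `L(E, 1) ≠ 0` for `E : y² = x³ + a x + b`: there is an entire function `F` which for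
`Re s > 3/2` is the incomplete L-series `∏_{p ∤ 2Δ} (1 - a_p p^{-s} + p^{1-2s})⁻¹`, `a_p = p - N_p`,
of `E` over `ℚ`, and `F(1) ≠ 0`. -/
def AnalyticRankZero (a b : ℤ) : Prop :=
  ∃ F : ℂ → ℂ, (Differentiable ℂ F ∧ ∀ s : ℂ, (3 : ℝ) / 2 < s.re →
    HasProd (fun p : ℕ => if GoodPrime a b p then
      (1 - ((p : ℂ) - (pointCount a b p : ℂ)) * (p : ℂ) ^ (-s) + (p : ℂ) ^ (1 - 2 * s))⁻¹ else 1)
      (F s)) ∧ F 1 ≠ 0

/-- `q` is a prime, `q ∤ 2 Δ`, and `l` does not divide the number `N_q + 1` of the points of `E` over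
`ℤ/q` (with the point at infinity). -/
def Admissible (a b : ℤ) (l q : ℕ) : Prop := GoodPrime a b q ∧ ¬ l ∣ pointCount a b q + 1

/-- The families `c = (c_q)` of characters `c_q` of the groups `(ℤ/q)ˣ`.  The family with `c_q = 1`
except for the primes `q` of a finite set stands for the Dirichlet character `χ_c = ∏ c_q` of
squarefree conductor; this is an isomorphism of groups. -/
abbrev Fam : Type := (q : ℕ) → (ZMod q)ˣ →* ℂˣ

open Classical in
/-- The set of the `q` with `c_q ≠ 1` (if it is finite). -/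
noncomputable def supp (c : Fam) : Finset ℕ :=
  if h : {q | c q ≠ 1}.Finite then h.toFinset else ∅

/-- The conductor of `χ_c`. -/
noncomputable def conductor (c : Fam) : ℕ := ∏ q ∈ supp c, q

/-- The value `χ_c(m)`. -/
noncomputable def value (c : Fam) (m : ℕ) : ℂ :=
  ∏ q ∈ supp c, if h : m.Coprime q then (c q (ZMod.unitOfCoprime m h) : ℂ) else 0

open Classical in
/-- The Gaussian period `∑ exp(2 π i u / M)`, `0 ≤ u < M`, `χ_c(u) = 1`, where `M` is the conductor of
`χ_c`.  It generates the cyclic extension of `ℚ` attached to `χ_c` (the subfield of `ℚ(exp(2 π i / M))`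
fixed by the kernel of `χ_c`; recall that `M` is squarefree). -/
noncomputable def period (c : Fam) : ℂ :=
  ∑ u ∈ (Finset.range (conductor c)).filter (fun u => value c u = 1),
    Complex.exp (2 * Real.pi * Complex.I / (conductor c : ℕ)) ^ u

/-- `H` is a group of Dirichlet characters of order dividing `l ^ n` and of squarefree conductors
composed of primes admissible for all the curves. -/
structure IsCharGroup {m : ℕ} (a b : Fin m → ℤ) (l n : ℕ) (H : Subgroup Fam) : Prop where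
  pow : ∀ c ∈ H, c ^ (l ^ n) = 1
  finite : ∀ c ∈ H, {q | c q ≠ 1}.Finite
  admissible : ∀ c ∈ H, ∀ q, c q ≠ 1 → q.Prime ∧ ∀ i, Admissible (a i) (b i) l q

/-- The `n`-th Fourier coefficient of `f`. -/
noncomputable def coef {N : ℕ} (f : CuspForm (Gamma0 N : Subgroup (GL (Fin 2) ℝ)) 2) (n : ℕ) : ℂ :=
  (qExpansion 1 f).coeff n

/-- `f ∈ S_2(Γ₀(N))` is the newform of the elliptic curve `E : y² = x³ + a x + b`, with its standard
properties: the Fourier coefficients `c(n)` of `f` are real with `c(1) = 1`, they satisfy the Hecke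
relations `c(mn) = c(m) c(n)` for coprime `m`, `n` and `c(p^(j+2)) = c(p) c(p^(j+1)) - p c(p^j)`
(without the last term if `p ∣ N`) and the bounds `|c(p)| ≤ 2√p` for `p ∤ N`, `|c(p)| ≤ 1` for
`p ∣ N`; `f` is an eigenfunction of the Fricke involution: `f(-1/(Nτ)) = -w N τ² f(τ)` with `w = ±1`;
for all primes `p ∤ 2Δ` one has `p ∤ N` and `c(p) = a_p(E)`.  (Every elliptic curve over `ℚ` has such a
form by the modularity theorem.) -/
structure IsFormOf (a b : ℤ) (N : ℕ) (f : CuspForm (Gamma0 N : Subgroup (GL (Fin 2) ℝ)) 2) :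
    Prop where
  one : coef f 1 = 1
  real : ∀ n, (coef f n).im = 0
  mul : ∀ m n : ℕ, Nat.Coprime m n → coef f (m * n) = coef f m * coef f n
  pow : ∀ p j : ℕ, p.Prime → coef f (p ^ (j + 2)) = coef f p * coef f (p ^ (j + 1)) -
      (if p ∣ N then 0 else (p : ℂ) * coef f (p ^ j))
  good : ∀ p : ℕ, p.Prime → ¬ p ∣ N → ‖coef f p‖ ≤ 2 * Real.sqrt p
  bad : ∀ p : ℕ, p.Prime → p ∣ N → ‖coef f p‖ ≤ 1
  fricke : ∃ w : ℝ, (w = 1 ∨ w = -1) ∧ ∀ τ τ' : ℍ, (τ' : ℂ) * ((N : ℂ) * (τ : ℂ)) = -1 →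
    f τ' = -(w : ℂ) * (N : ℂ) * (τ : ℂ) ^ 2 * f τ
  points : ∀ p : ℕ, GoodPrime a b p → ¬ p ∣ N ∧ coef f p = (p : ℂ) - (pointCount a b p : ℂ)

/-- `pw t u n = α ^ n + β ^ n`, where `α`, `β` are the roots of `X² - t X + u`. -/
noncomputable def pw (t u : ℂ) : ℕ → ℂ
  | 0 => 2
  | 1 => t
  | n + 2 => t * pw t u (n + 1) - u * pw t u n

section
variable {F : Type} [Field F] [NumberField F]

/-- The number `a_v` of `E : y² = x³ + a x + b` at a finite place `v` of `F`: `Nv` minus the number of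
affine solutions `(x, y)` of the equation over the residue field `𝓞 F / v`. -/
noncomputable def av (a b : ℤ) (v : HeightOneSpectrum (𝓞 F)) : ℤ :=
  ((Ideal.absNorm v.asIdeal : ℕ) : ℤ) -
    ((Nat.card {x : (𝓞 F ⧸ v.asIdeal) × (𝓞 F ⧸ v.asIdeal) //
      x.2 ^ 2 = x.1 ^ 3 + (a : 𝓞 F ⧸ v.asIdeal) * x.1 + (b : 𝓞 F ⧸ v.asIdeal)} : ℕ) : ℤ)

open Classical in
/-- The Euler factor of `L(E/F, s)` at the finite place `v` of `F`.  If `v ∤ 2 Δ`, it is
`(1 - a_v (Nv)^(-s) + (Nv)^(1-2s))⁻¹`.  If `v ∣ 2 Δ` and `Nv = p ^ d` with `p` prime, it is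
`(1 - (α^d + β^d) (Nv)^(-s) + (Nv)^(1-2s))⁻¹` for `p ∤ N`, where `α`, `β` are the roots of
`X² - c(p) X + p`, and `(1 - c(p)^d (Nv)^(-s))⁻¹` for `p ∣ N`.  (The primes `p ∣ 2 Δ` will be
unramified in `F`, so that this is the Hasse-Weil factor.) -/
noncomputable def factor (a b : ℤ) {N : ℕ} (f : CuspForm (Gamma0 N : Subgroup (GL (Fin 2) ℝ)) 2)
    (s : ℂ) (v : HeightOneSpectrum (𝓞 F)) : ℂ :=
  if ((2 * (4 * a ^ 3 + 27 * b ^ 2) : ℤ) : 𝓞 F) ∈ v.asIdeal then
    (1 - pw (coef f (Ideal.absNorm v.asIdeal).minFac)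
          (if (Ideal.absNorm v.asIdeal).minFac ∣ N then 0 else ((Ideal.absNorm v.asIdeal).minFac : ℂ))
          ((Ideal.absNorm v.asIdeal).factorization (Ideal.absNorm v.asIdeal).minFac)
          * ((Ideal.absNorm v.asIdeal : ℕ) : ℂ) ^ (-s)
      + (if (Ideal.absNorm v.asIdeal).minFac ∣ N then (0 : ℂ) else
          ((Ideal.absNorm v.asIdeal : ℕ) : ℂ) ^ (1 - 2 * s)))⁻¹
  else
    (1 - ((av a b v : ℤ) : ℂ) * ((Ideal.absNorm v.asIdeal : ℕ) : ℂ) ^ (-s)
      + ((Ideal.absNorm v.asIdeal : ℕ) : ℂ) ^ (1 - 2 * s))⁻¹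

end

/-- `L(E/F, s)` is entire and `L(E/F, 1) ≠ 0`, for the number field `F ⊂ ℂ` and the elliptic curve
`E : y² = x³ + a x + b` with newform `f`: there is an entire function `G` which for `Re s > 3/2` is the
Euler product of `E` over all finite places of `F`, and `G(1) ≠ 0`. -/
def NonvanishingOver (F : IntermediateField ℚ ℂ) [NumberField F] (a b : ℤ) {N : ℕ}
    (f : CuspForm (Gamma0 N : Subgroup (GL (Fin 2) ℝ)) 2) : Prop :=
  ∃ G : ℂ → ℂ, Differentiable ℂ G ∧
    (∀ s : ℂ, 3 / 2 < s.re → HasProd (fun v : HeightOneSpectrum (𝓞 F) => factor a b f s v) (G s)) ∧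
    G 1 ≠ 0

theorem pw_eq (t u : ℂ) : ∀ n : ℕ, pw t u n = W165.CE.pw t u n
  | 0 => rfl
  | 1 => rfl
  | n + 2 => by rw [pw, W165.CE.pw, pw_eq t u (n + 1), pw_eq t u n]

theorem factor_eq {F : Type} [Field F] [NumberField F] (a b : ℤ) {N : ℕ}
    (f : CuspForm (Gamma0 N : Subgroup (GL (Fin 2) ℝ)) 2) (s : ℂ) (v : HeightOneSpectrum (𝓞 F)) :
    factor a b f s v = W165.CE.fac a b N (Pool.Agent.Y18.BSD.co f) s v := by
  unfold factor W165.CE.fac
  rw [pw_eq]
  rfl

theorem nonvanishing_of {F : IntermediateField ℚ ℂ} [NumberField F] {a b : ℤ} {N : ℕ}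
    {f : CuspForm (Gamma0 N : Subgroup (GL (Fin 2) ℝ)) 2} (h : Pool.Agent.Y18.NF.RZ F a b f) :
    NonvanishingOver F a b f := by
  obtain ⟨G, h1, h2, h3⟩ := h
  refine ⟨G, h1, fun s hs => ?_, h3⟩
  refine (congrArg (fun g => HasProd g (G s)) (funext fun v => ?_)).mp (h2 s hs)
  exact (factor_eq a b f s v).symm

/-- A set of tuples, finitely many translates of which cover `H ^ r`, has a positive proportion. -/
theorem card_le_of_cover {G : Type*} [CommGroup G] (H : Subgroup G) (hfin : (H : Set G).Finite) {r : ℕ}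
    (P : (Fin r → G) → Prop) {V : ℕ} (K : Finset (Fin r → G)) (hK1 : K.card ≤ V)
    (hK2 : ∀ k ∈ K, ∀ j, k j ∈ H)
    (key : ∀ c : Fin r → G, (∀ j, c j ∈ H) → ∃ k ∈ K, P (fun j => c j * k j)) :
    Nat.card H ^ r ≤ V * Nat.card {c : Fin r → H // P (fun j => (c j : G))} := by
  classical
  have hf : Finite H := hfin.to_subtype
  have h1 : ∀ c : Fin r → H, ∃ p : {k // k ∈ K} × {c : Fin r → H // P (fun j => (c j : G))},
      ∀ j, (p.2.1 j : G) = c j * p.1.1 j := by
    intro c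
    obtain ⟨k, hk, hP⟩ := key (fun j => (c j : G)) (fun j => (c j).2)
    exact ⟨(⟨k, hk⟩, ⟨fun j => ⟨(c j : G) * k j, H.mul_mem (c j).2 (hK2 k hk j)⟩, hP⟩), fun j => rfl⟩
  choose φ hφ using h1
  have hinj : Function.Injective φ := by
    intro c c' h
    funext j
    have e1 := hφ c j
    have e2 := hφ c' j
    rw [h, e2] at e1
    exact Subtype.ext (mul_right_cancel e1).symm
  have h2 := Nat.card_le_card_of_injective φ hinj
  rw [Nat.card_prod] at h2
  have h3 : Nat.card (Fin r → H) = Nat.card H ^ r := by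
    rw [Nat.card_fun, Nat.card_eq_fintype_card (α := Fin r), Fintype.card_fin]
  rw [h3] at h2
  refine h2.trans (Nat.mul_le_mul_right _ ?_)
  rw [Nat.card_eq_fintype_card, Fintype.card_coe]
  exact hK1

/-- The tuple `(χ_1, …, χ_r)` is good: `L(E_i/F, s)` is entire and `L(E_i/F, 1) ≠ 0` for all `i` and
all number fields `F ⊂ ℂ` contained in the field generated by the Gaussian periods of all the
characters in the group generated by `χ_1, …, χ_r`. -/
def Good {m : ℕ} (a b : Fin m → ℤ) (N : Fin m → ℕ)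
    (f : (i : Fin m) → CuspForm (Gamma0 (N i) : Subgroup (GL (Fin 2) ℝ)) 2) {r : ℕ}
    (c : Fin r → Fam) : Prop :=
  ∀ (F : IntermediateField ℚ ℂ) [NumberField F],
    F ≤ IntermediateField.adjoin ℚ {x : ℂ | ∃ d ∈ Subgroup.closure (Set.range c), x = period d} →
    ∀ i, NonvanishingOver F (a i) (b i) (f i)

/-- **Theorem.** (1) Let `E_i : y² = x³ + a_i x + b_i`, `i = 1, …, m`, be elliptic curves over `ℚ` with
newforms `f_i` and `L(E_i, 1) ≠ 0`, let `l` be a prime and `n`, `r` integers. There is `V` such that for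
every group `H` of Dirichlet characters of order dividing `l ^ n` and of squarefree conductors composed of
primes `q ∤ 2 Δ_i` with `l ∤ #E_i(ℤ/q)`:
(a) there is a set `K` of at most `2 ^ V` tuples in `H ^ r` such that for every tuple `c` in `H ^ r` there
is `k` in `K` with `c k` good;
(b) if `H` is finite, at least `|H| ^ r / 2 ^ V` of the tuples in `H ^ r` are good.

(2) The curve `X_0(11) : y² = x³ - 13392 x - 1080432` has a newform, of level 11, and
`L(X_0(11), 1) ≠ 0`. -/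
theorem result :
    (∀ (m : ℕ) (a b : Fin m → ℤ), (∀ i, 4 * a i ^ 3 + 27 * b i ^ 2 ≠ 0) →
      ∀ N : Fin m → ℕ, (∀ i, N i ≠ 0) →
      ∀ f : (i : Fin m) → CuspForm (Gamma0 (N i) : Subgroup (GL (Fin 2) ℝ)) 2,
      (∀ i, IsFormOf (a i) (b i) (N i) (f i)) → (∀ i, AnalyticRankZero (a i) (b i)) →
      ∀ l n r : ℕ, l.Prime → ∃ V : ℕ,
        ∀ H : Subgroup Fam, IsCharGroup a b l n H →
          (∃ K : Finset (Fin r → Fam), K.card ≤ 2 ^ V ∧ (∀ k ∈ K, ∀ j, k j ∈ H) ∧
            ∀ c : Fin r → Fam, (∀ j, c j ∈ H) → ∃ k ∈ K, Good a b N f (fun j => c j * k j)) ∧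
          ((H : Set Fam).Finite → Nat.card H ^ r ≤
            2 ^ V * Nat.card {c : Fin r → H // Good a b N f (fun j => (c j : Fam))})) ∧
    ((∃ f : CuspForm (Gamma0 11 : Subgroup (GL (Fin 2) ℝ)) 2,
      IsFormOf (-13392) (-1080432) 11 f) ∧ AnalyticRankZero (-13392) (-1080432)) := by
  refine ⟨?_, ?_, ?_⟩
  · intro m a b hΔ N hN f hf h0 l n r hl
    have : ∀ i, NeZero (N i) := fun i => ⟨hN i⟩
    obtain ⟨V, hV⟩ := Pool.Agent.Y18.LP.fields m a b hΔ N f
      (fun i => ⟨(hf i).one, (hf i).real, (hf i).mul, (hf i).pow, (hf i).good, (hf i).bad,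
        (hf i).fricke, (hf i).points⟩) h0 l n r hl
    refine ⟨V, fun H hH => ?_⟩
    obtain ⟨K, hK1, hK2, hK3⟩ := hV H ⟨hH.pow, hH.finite, hH.admissible⟩
    have key : ∀ c : Fin r → Fam, (∀ j, c j ∈ H) → ∃ k ∈ K, Good a b N f (fun j => c j * k j) := by
      intro c hc
      obtain ⟨k, hk, h4⟩ := hK3 c hc
      refine ⟨k, hk, fun F _ hF i => nonvanishing_of (h4 F (hF.trans ?_) i)⟩
      refine IntermediateField.adjoin.mono ℚ _ _ ?_
      rintro x ⟨d, hd, rfl⟩
      obtain ⟨J, rfl⟩ := Pool.Agent.Y18.LP.mem_closure_tuple (pow_pos hl.pos n)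
        (fun j => c j * k j) (fun j => hH.pow _ (H.mul_mem (hc j) (hK2 k hk j))) hd
      exact ⟨J, rfl⟩
    refine ⟨⟨K, hK1, hK2, key⟩, fun hfin => ?_⟩
    exact card_le_of_cover H hfin (Good a b N f) K hK1 hK2 key
  · have h := Pool.Agent.Y18.BSD.Eleven.isFormOf
    exact ⟨_, ⟨h.one, h.real, h.mul, h.pow, h.good, h.bad, h.fricke, h.points⟩⟩
  · exact Pool.Agent.Y18.NF.rankZero11

end Pool.Agent.Results.MP_6dc9d1_nt.ProportionOfAbelianFields
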