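import Pool.Agent.U41.QK.Lf
import Pool.Agent.U41.QK.Tow
import Pool.Agent.U41.QK.PenEx

/-!
# Beilinson's rank conjecture in all odd dimensions over infinite towers of number fields: quadric bundles
# over the line and intersections of two quadrics in `ℙ⁵`

`E_a : y² = x³ - 35 a² x - 98 a³` is the quadratic twist by `a` of `X_0(49)`. Let

  `Δ_{a,b}(x, y) = -3 (16 b³ x⁶ - 15 a b² x⁴ y² - 15 a² b x² y⁴ + 16 a³ y⁶)`.

The following smooth projective varieties of dimension `2 i + 1` over a number field `K` are considered,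
for `a, b ∈ 𝓞 K` not zero.

* Quadric bundles: for all `k ≥ 0` and all symmetric matrices `S` of size `2 k + 2` whose entries `S i j`
  are binary forms over `𝓞 K` of degree `(d i + d j) / 2` (the `d i` of the same parity), with
  `det S = (-1)^(k+1) e² Δ_{a,b}`, `e ≠ 0`, the variety `Y : ∑ S i j (x, y) z_i z_j = 0`, `(x : y) ∈ ℙ¹`,
  `(z) ∈ ℙ^(2k+1)`, of dimension `2 k + 1`, `i = k` (it is smooth, as the zeros of `Δ_{a,b}` are simple).
  For `k = 0` it is the curve `C : w² = Δ_{a,b}` of genus two.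
* Intersections of two quadrics: for all symmetric `6 × 6` matrices `A`, `B` over `𝓞 K` with
  `det (x A + y B) = - e² Δ_{a,b}`, `e ≠ 0`, the threefold `X : ∑ A i j z_i z_j = ∑ B i j z_i z_j = 0` in
  `ℙ⁵`, `i = 1`.

The cohomology in the middle degree is `H¹(C)(-i)`, the Jacobian of `C` is isogenous to `E_a × E_b`, and
`CH^(i+1)(·)_0 ⊗ ℚ = Jac(C)(K) ⊗ ℚ`. (These facts are not formalized; the `L`-functions below are those
given by the numbers of points over all finite fields over the good places of `K`, and the group is given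
by the points of `E_a` and `E_b` over `K`.) So the conjecture holds for these varieties, with `0 = 0`, if
`E_a(K)` and `E_b(K)` are finite and the `L`-function is not zero at `i + 1`.

`D` runs over the class of the squarefree numbers with all prime factors `≡ 1 mod 4`, `P` is any finite set
of primes `≡ 1 mod 4`, and `T` any finite subset of the class that is closed under the multiplication by
the elements of `P` (up to squares), for example the set of the `2 ^ #P` products of elements of `P`. For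
exactly the proportion `c ^ #T` of the `D`, `c = ∏_{i ≥ 0} (1 - 2^{-(2i+1)})`, `0.4194 < c`, all the
`E_{M D}`, `M ∈ T`, have finitely many rational points and no `Ш[2]`; this is also true for exactly the
proportion `c ^ #T` of the `D = m² + n²` of the class, where `m / n` runs over the rational numbers, and so
for a positive proportion of ALL rational numbers `m / n`. For each such `D` let `K_∞` be the field
generated by `√-7`, by the `√q` for the `q ∈ P` and for all the primes `q ≡ 1 mod 4`, inert in `ℚ(√-7)`,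
that are squares modulo all the prime factors, split in `ℚ(√-7)`, of `D` and of the elements of `T`; it is
an infinite extension of `ℚ`. Then over ALL the number fields `K ⊆ K_∞` both sides of the conjecture are
zero for ALL the varieties above, where `a` and `b` are any products of a number `M D`, `M ∈ T`, and a
nonzero square of `𝓞 K`. Quadric bundles exist for all `k`, `a`, `b`, intersections of two quadrics if
`√-7 ∈ K` and `a b` is a square.

Proof. The number of points: over a finite field the fibres have corank at most one (a double zero of the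
determinant would be a double zero of `Δ_{a,b}`), their numbers of points are given by the quadratic
character of the determinant, and the sum of the quadratic character of `Δ_{a,b}` over the line is the sum
of the character sums of `E_a` and `E_b`; the sums over the extensions of the residue field are given by
the exact `L`-polynomial of `y² = x (x² + u x + v)`. The fields: for `M ∈ T` and a product `N` of elements
of `P` and of primes of the tower the symmetric matrix which decides `Ш[2] = 0` and the finiteness for the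
twist by `M N D` is that of a twist by `M' D`, `M' ∈ T` (cf. `MP_32c55d_nt/InertTowersX49`); so rank and
order are zero for all the twists which occur over `K`, if `√-7 ∉ K`. If `√-7 ∈ K`, the twists by `-7` are
isogenous to the given ones by an explicit isogeny of degree seven.
-/

set_option autoImplicit false

open scoped Classical

open Filter Topology MvPolynomial NumberField IsDedekindDomain

namespace Pool.Agent.Results.MP_6dc9d1_nt.QuadricBundlesOverTowers

open Pool.Agent.TH841.NF.D (Sha)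

/-- the twist `E_a : y² = x³ - 35 a² x - 98 a³` of `X_0(49)` -/
def curve {K : Type} [Field K] (a : K) : WeierstrassCurve K :=
  { a₁ := 0, a₂ := 0, a₃ := 0, a₄ := -35 * a ^ 2, a₆ := -98 * a ^ 3 }

/-- the class: `D` is squarefree and all its prime factors are `≡ 1 mod 4` -/
def Family (D : ℕ) : Prop := Squarefree D ∧ ∀ p ∈ D.primeFactors, p % 4 = 1

/-- the squarefree part of `M D`, for squarefree `M` and `D` -/
def tw (M D : ℕ) : ℕ := M * D / Nat.gcd M D ^ 2

/-- `E_D(ℚ)` is finite and `Ш(E_D/ℚ)` has no element of order two -/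
def TrivialTwo (D : ℕ) : Prop :=
  Finite (curve (D : ℚ)).toAffine.Point ∧ ∀ x : Sha (curve (D : ℚ)), 2 • x = 0 → x = 0

/-- For all `M ∈ T` the twist by `M D` has finitely many rational points and no element of order two in
its Tate-Shafarevich group. -/
def Good (T : Finset ℕ) (D : ℕ) : Prop := ∀ M ∈ T, TrivialTwo (tw M D)

/-- the number of the `D ≤ X` of the class with the property `Q` -/
noncomputable def num (Q : ℕ → Prop) (X : ℕ) : ℕ :=
  ((Finset.Icc 1 X).filter fun D => Family D ∧ Q D).card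

/-- `a² + b²` for the rational number `t = a / b` in lowest terms; it is `t² + 1` up to squares -/
def height (t : ℚ) : ℕ := t.num.natAbs ^ 2 + t.den ^ 2

/-- the rational numbers `t` with `a² + b² ≤ X` in the class and with the property `Q` -/
def Params (Q : ℕ → Prop) (X : ℕ) : Set ℚ :=
  {t | height t ≤ X ∧ Family (height t) ∧ Q (height t)}

/-- the rational numbers `t` with numerator and denominator at most `X` and the property `Q` -/
def Box (Q : ℚ → Prop) (X : ℕ) : Set ℚ := {t | max t.num.natAbs t.den ≤ X ∧ Q t}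

/-- `T` is closed under the multiplication (up to squares) by the elements of `P` -/
def Closed (P T : Finset ℕ) : Prop := ∀ M ∈ T, ∀ q ∈ P, tw q M ∈ T

/-- the set of the products of elements of `P` -/
def products (P : Finset ℕ) : Finset ℕ := P.powerset.image fun S => ∏ q ∈ S, q

/-- the primes `q ≡ 1 mod 4`, inert in `ℚ(√-7)`, that are squares modulo all the prime factors, split in
`ℚ(√-7)`, of `D` and of the elements of `T` -/
def TowerPrime (T : Finset ℕ) (D q : ℕ) : Prop :=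
  q.Prime ∧ q % 4 = 1 ∧ (q % 7 = 3 ∨ q % 7 = 5 ∨ q % 7 = 6) ∧
    ∀ p : ℕ, p.Prime → (p ∣ D ∨ ∃ M ∈ T, p ∣ M) → (p % 7 = 1 ∨ p % 7 = 2 ∨ p % 7 = 4) →
      IsSquare (q : ZMod p)

/-- the field generated by the square roots of `-7`, of the elements of `P` and of the primes of the
tower -/
noncomputable def Tower (P T : Finset ℕ) (D : ℕ) : IntermediateField ℚ ℂ :=
  IntermediateField.adjoin ℚ
    {z : ℂ | (∃ q : ℕ, (q ∈ P ∨ TowerPrime T D q) ∧ z ^ 2 = (q : ℂ)) ∨ z ^ 2 = -7}

section bundles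

variable {K : Type} [Field K] [NumberField K]

/-- the binary sextic form `Δ_{a,b} = -3 (16 b³ x⁶ - 15 a b² x⁴ y² - 15 a² b x² y⁴ + 16 a³ y⁶)` -/
noncomputable def disc (a b : 𝓞 K) : MvPolynomial (Fin 2) (𝓞 K) :=
  -3 * (16 * C (b ^ 3) * X 0 ^ 6 - 15 * C (a * b ^ 2) * (X 0 ^ 4 * X 1 ^ 2)
    - 15 * C (a ^ 2 * b) * (X 0 ^ 2 * X 1 ^ 4) + 16 * C (a ^ 3) * X 1 ^ 6)

/-- `S` is the matrix of a quadric bundle of relative dimension `2 k` over the line over `K` with
discriminant `e² Δ_{a,b}`: it is symmetric, its entries are forms of the degrees `(d i + d j) / 2` for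
numbers `d i` of the same parity, and its determinant is `(-1)^(k+1) e² Δ_{a,b}`, `e ≠ 0`. -/
def IsBundle (k : ℕ) (a b e : 𝓞 K)
    (S : Matrix (Fin (2 * k + 2)) (Fin (2 * k + 2)) (MvPolynomial (Fin 2) (𝓞 K))) : Prop :=
  S.IsSymm ∧ (∃ d : Fin (2 * k + 2) → ℕ, (∀ i j, d i % 2 = d j % 2) ∧
    ∀ i j, (S i j).IsHomogeneous ((d i + d j) / 2)) ∧
  e ≠ 0 ∧ S.det = (-1) ^ (k + 1) * C (e ^ 2) * disc a b

/-- The pairs of a nonzero `(x, y)` and a nonzero `z` with coordinates in `F` and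
`∑ S i j (x, y) z_i z_j = 0`; every point of the reduction of `Y` over `F` is given by `(#F - 1)²` of
them. -/
def bundlePoints {n : ℕ} (S : Matrix (Fin n) (Fin n) (MvPolynomial (Fin 2) (𝓞 K))) {F : Type} [Field F]
    (φ : 𝓞 K →+* F) : Set ((Fin 2 → F) × (Fin n → F)) :=
  {w | w.1 ≠ 0 ∧ w.2 ≠ 0 ∧ ∑ i, ∑ j, eval₂ φ w.1 (S i j) * w.2 i * w.2 j = 0}

/-- `E` is the multiset of the eigenvalues of the Frobenius at `v` on `H^(2k+1)(Y)`: for every extension
`F` of degree `r` of the residue field the number of the points of `Y` over `F` is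
`(#F + 1) (1 + #F + ... + #F^(2k)) - ∑ α^r` (the first summand is the contribution of the even
cohomology, which is spanned by algebraic classes). -/
def BundleFrobenius (k : ℕ) (S : Matrix (Fin (2 * k + 2)) (Fin (2 * k + 2)) (MvPolynomial (Fin 2) (𝓞 K)))
    (v : HeightOneSpectrum (𝓞 K)) (E : Multiset ℂ) : Prop :=
  ∀ (F : Type) [Field F] [Finite F] (φ : 𝓞 K →+* F) (r : ℕ), RingHom.ker φ = v.asIdeal →
    Nat.card F = Ideal.absNorm v.asIdeal ^ r →
      ((bundlePoints S φ).ncard : ℂ) = ((Nat.card F : ℂ) - 1) ^ 2 * (((Nat.card F : ℂ) + 1) *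
        ∑ j ∈ Finset.range (2 * k + 1), (Nat.card F : ℂ) ^ j - (E.map (fun α => α ^ r)).sum)

/-- `A`, `B` are symmetric matrices of size six with `det (x A + y B) = - e² Δ_{a,b}`, `e ≠ 0` -/
def IsPencil (a b e : 𝓞 K) (A B : Matrix (Fin 6) (Fin 6) (𝓞 K)) : Prop :=
  A.IsSymm ∧ B.IsSymm ∧ e ≠ 0 ∧
    (A.map (fun α => C α * X 0) + B.map (fun β => C β * X 1) :
      Matrix (Fin 6) (Fin 6) (MvPolynomial (Fin 2) (𝓞 K))).det = -(C (e ^ 2) * disc a b)

/-- The nonzero `z` with coordinates in `F` and `∑ A i j z_i z_j = ∑ B i j z_i z_j = 0`; every point of the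
reduction of `X` over `F` is given by `#F - 1` of them. -/
def intersectionPoints (A B : Matrix (Fin 6) (Fin 6) (𝓞 K)) {F : Type} [Field F]
    (φ : 𝓞 K →+* F) : Set (Fin 6 → F) :=
  {z | z ≠ 0 ∧ ∑ i, ∑ j, φ (A i j) * z i * z j = 0 ∧ ∑ i, ∑ j, φ (B i j) * z i * z j = 0}

/-- `E` is the multiset of the eigenvalues of the Frobenius at `v` on `H³(X)`: for every extension `F` of
degree `r` of the residue field the number of the points of `X` over `F` is
`1 + #F + #F² + #F³ - ∑ α^r`. -/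
def IntersectionFrobenius (A B : Matrix (Fin 6) (Fin 6) (𝓞 K)) (v : HeightOneSpectrum (𝓞 K))
    (E : Multiset ℂ) : Prop :=
  ∀ (F : Type) [Field F] [Finite F] (φ : 𝓞 K →+* F) (r : ℕ), RingHom.ker φ = v.asIdeal →
    Nat.card F = Ideal.absNorm v.asIdeal ^ r →
      ((intersectionPoints A B φ).ncard : ℂ) = ((Nat.card F : ℂ) - 1) *
        (∑ j ∈ Finset.range 4, (Nat.card F : ℂ) ^ j - (E.map (fun α => α ^ r)).sum)

/-- `L` is entire and equal for `Re s > k + 3 / 2` to the Euler product over the places not dividing `N`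
which is given by the eigenvalues of the Frobenius; at these places there are four eigenvalues, of absolute
value `q_v ^ (k + 1 / 2)`. -/
def IsLFunction (k : ℕ) (Frobenius : HeightOneSpectrum (𝓞 K) → Multiset ℂ → Prop) (N : 𝓞 K)
    (L : ℂ → ℂ) : Prop :=
  Differentiable ℂ L ∧ ∃ E : HeightOneSpectrum (𝓞 K) → Multiset ℂ,
    (∀ v, N ∉ v.asIdeal → Frobenius v (E v) ∧ (E v).card = 4 ∧
      ∀ α ∈ E v, ‖α‖ ^ 2 = ((Ideal.absNorm v.asIdeal : ℕ) : ℝ) ^ (2 * k + 1)) ∧
    ∀ s : ℂ, (k : ℝ) + 3 / 2 < s.re →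
      HasProd (fun v : HeightOneSpectrum (𝓞 K) => if N ∈ v.asIdeal then (1 : ℂ) else
        ((E v).map (fun α => (1 - α * ((Ideal.absNorm v.asIdeal : ℕ) : ℂ) ^ (-s))⁻¹)).prod) (L s)

/-- `E_a(K)` and `E_b(K)` are finite, and the `L`-function, without the factors at the places dividing
`42 a b e`, is entire, its order at the centre `s = k + 1` is the sum of the ranks of `E_a(K)` and
`E_b(K)`, and it is not zero there. -/
def RankZero (k : ℕ) (Frobenius : HeightOneSpectrum (𝓞 K) → Multiset ℂ → Prop) (a b e : 𝓞 K) : Prop :=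
  Finite (curve (a : K)).toAffine.Point ∧ Finite (curve (b : K)).toAffine.Point ∧
    ∃ L : ℂ → ℂ, IsLFunction k Frobenius (42 * a * b * e) L ∧
      analyticOrderAt L (k + 1) = ((Module.finrank ℤ (curve (a : K)).toAffine.Point +
        Module.finrank ℤ (curve (b : K)).toAffine.Point : ℕ) : ℕ∞) ∧
      L (k + 1) ≠ 0

/-- `a` is the product of one of the `M D`, `M ∈ T`, and a nonzero square. -/
def IsTwist (T : Finset ℕ) (D : ℕ) (a : 𝓞 K) : Prop :=
  ∃ M ∈ T, ∃ t : 𝓞 K, t ≠ 0 ∧ a = ((tw M D : ℕ) : 𝓞 K) * t ^ 2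

end bundles

/-- the constant `0.4194...` -/
noncomputable def c : ℝ := ∏' i : ℕ, (1 - (1 / 2 : ℝ) ^ (2 * i + 1))

section proof

open Pool.Agent.U41.QB (FF GG TT eig norm_eig)
open Pool.Agent.U41.QK
open Pool.Agent.Results.MP_4a9ea6_nt.TwoPartTwistsX49 (Adm mat)
open Pool.Agent.Results.MP_32c55d_nt.InertTowersX49 (crit)

theorem curve_nat (D : ℕ) (K : Type) [Field K] :
    Pool.Agent.Results.MP_32c55d_nt.InertTowersX49.curve D K = curve (D : K) := by
  unfold Pool.Agent.Results.MP_32c55d_nt.InertTowersX49.curve curve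
    Pool.Agent.Results.MP_32c55d_nt.InertTowersX49.A Pool.Agent.Results.MP_32c55d_nt.InertTowersX49.B
  push_cast
  rfl

theorem trivial_iff (D : ℕ) :
    Pool.Agent.Results.MP_32c55d_nt.InertTowersX49.TrivialTwo D ↔ TrivialTwo D := by
  unfold Pool.Agent.Results.MP_32c55d_nt.InertTowersX49.TrivialTwo TrivialTwo
  rw [curve_nat]

theorem good_det {T : Finset ℕ} (hT : ∀ M ∈ T, Family M) {D : ℕ} (hD : Family D) :
    Good T D ↔ ∀ M ∈ T, ((mat (Pool.Agent.R413.SQ.Joint.tw M D)).det ≠ 0 ↔ M ∈ T) := by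
  unfold Good
  refine forall₂_congr fun M hM => ?_
  have h1 : Adm (Pool.Agent.R413.SQ.Joint.tw M D) := Pool.Agent.R413.SQ.Joint.adm_tw (hT M hM) hD
  rw [← trivial_iff]
  have h5 : Pool.Agent.Results.MP_32c55d_nt.InertTowersX49.TrivialTwo (tw M D) ↔
    (mat (Pool.Agent.R413.SQ.Joint.tw M D)).det ≠ 0 := crit h1
  exact h5.trans ⟨fun h => ⟨fun _ => hM, fun _ => h⟩, fun h => h.2 hM⟩

theorem num_num {Q R : ℕ → Prop} (h : ∀ D, Family D → (Q D ↔ R D)) (X : ℕ) :
    num Q X = Pool.Agent.R413.SQ.Joint.num R X := by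
  unfold num Pool.Agent.R413.SQ.Joint.num
  refine congrArg Finset.card (Finset.filter_congr fun D _ => ?_)
  exact and_congr_right fun hD => h D hD

open Pool.Agent.Results.MP_696deb_nt.SumsOfTwoSquares (adm_of par_pat height_pos box_fin box_card Pattern)

theorem fam_iff (t : ℚ) : Family (height t) ↔ Odd (height t) ∧ Squarefree (height t) := by
  constructor
  · intro h
    refine ⟨?_, h.1⟩
    rw [← Nat.not_even_iff_odd]
    intro he
    have h2 : 2 ∈ (height t).primeFactors :=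
      Nat.mem_primeFactors.2 ⟨Nat.prime_two, he.two_dvd, h.1.ne_zero⟩
    have := h.2 2 h2
    omega
  · rintro ⟨h1, h2⟩
    exact adm_of h1 h2

theorem pat_good {T : Finset ℕ} (hT : ∀ M ∈ T, Family M) {t : ℚ} (ht : Family (height t)) :
    Pattern T T t ↔ Good T (height t) := by
  unfold Pattern Good
  refine forall₂_congr fun M hM => ?_
  have h1 : Pool.Agent.Results.MP_696deb_nt.SumsOfTwoSquares.TrivialTwo
      (Pool.Agent.Results.MP_696deb_nt.SumsOfTwoSquares.tw M
        (Pool.Agent.Results.MP_696deb_nt.SumsOfTwoSquares.height t)) ↔ TrivialTwo (tw M (height t)) :=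
    trivial_iff (tw M (height t))
  rw [h1]
  exact ⟨fun h => h.2 hM, fun h => ⟨fun _ => hM, fun _ => h⟩⟩

theorem par_eq {T : Finset ℕ} (hT : ∀ M ∈ T, Family M) (X : ℕ) : Params (Good T) X =
    Pool.Agent.Results.MP_696deb_nt.SumsOfTwoSquares.Params (Pattern T T) X := by
  ext t
  constructor
  · rintro ⟨h1, h2, h3⟩
    exact ⟨h1, ((fam_iff t).1 h2).1, ((fam_iff t).1 h2).2, (pat_good hT h2).2 h3⟩
  · rintro ⟨h1, h2, h3, h4⟩
    have h5 := (fam_iff t).2 ⟨h2, h3⟩
    exact ⟨h1, h5, (pat_good hT h5).1 h4⟩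

theorem par_eq' (X : ℕ) : Params (fun _ => True) X =
    Pool.Agent.Results.MP_696deb_nt.SumsOfTwoSquares.Params (fun _ => True) X := by
  ext t
  constructor
  · rintro ⟨h1, h2, -⟩
    exact ⟨h1, ((fam_iff t).1 h2).1, ((fam_iff t).1 h2).2, trivial⟩
  · rintro ⟨h1, h2, h3, -⟩
    exact ⟨h1, (fam_iff t).2 ⟨h2, h3⟩, trivial⟩

theorem law_t {T : Finset ℕ} (hT : ∀ M ∈ T, Family M) :
    Tendsto (fun X : ℕ => ((Params (Good T) X).ncard : ℝ) / ((Params (fun _ => True) X).ncard : ℝ)) atTop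
      (𝓝 (c ^ T.card)) := by
  have h := Pool.Agent.U80.WQ.joint_t hT (Finset.Subset.refl T)
  rw [Finset.sdiff_self, Finset.card_empty, pow_zero, mul_one] at h
  refine h.congr fun X => ?_
  rw [par_eq hT, par_eq', par_pat hT]
  rfl

theorem pos_t {T : Finset ℕ} (hT : ∀ M ∈ T, Family M) : ∃ (κ : ℝ) (X₀ : ℕ), 0 < κ ∧
    ∀ X : ℕ, X₀ ≤ X → κ * ((Box (fun _ => True) X).ncard : ℝ) ≤
      ((Box (fun t => Family (height t) ∧ Good T (height t)) X).ncard : ℝ) := by
  obtain ⟨κ, X₀, hκ, h⟩ := Pool.Agent.U80.WQ.joint_count hT (Finset.Subset.refl T)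
  refine ⟨κ / 6, X₀ + 1, by positivity, fun X hX => ?_⟩
  have hX1 : X ≤ X ^ 2 := Nat.le_self_pow (by norm_num) X
  have h1 := h (X ^ 2) (by omega)
  rw [← par_pat hT, ← par_eq hT] at h1
  have h2 : ((Box (fun _ => True) X).ncard : ℝ) ≤ 6 * X ^ 2 := by
    have e : Box (fun _ => True) X = {t : ℚ | max t.num.natAbs t.den ≤ X} := by
      ext t
      exact ⟨fun h => h.1, fun h => ⟨h, trivial⟩⟩
    rw [e]
    exact box_card (by omega)
  have h3 : Params (Good T) (X ^ 2) ⊆ Box (fun t => Family (height t) ∧ Good T (height t)) X := by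
    rintro t ⟨h4, h5⟩
    refine ⟨?_, h5⟩
    have h6 : t.num.natAbs ^ 2 + t.den ^ 2 ≤ X ^ 2 := h4
    refine max_le ?_ ?_
    · exact (Nat.pow_le_pow_iff_left (by norm_num : (2 : ℕ) ≠ 0)).1 (by omega)
    · exact (Nat.pow_le_pow_iff_left (by norm_num : (2 : ℕ) ≠ 0)).1 (by omega)
  have h4 := Set.ncard_le_ncard h3 ((box_fin X).subset fun t ht => ht.1)
  have h5 : ((Params (Good T) (X ^ 2)).ncard : ℝ) ≤
      ((Box (fun t => Family (height t) ∧ Good T (height t)) X).ncard : ℝ) := by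
    exact_mod_cast h4
  push_cast at h1
  refine le_trans ?_ (h1.trans h5)
  calc κ / 6 * ((Box (fun _ => True) X).ncard : ℝ) ≤ κ / 6 * (6 * X ^ 2) :=
        mul_le_mul_of_nonneg_left h2 (by positivity)
    _ = κ * X ^ 2 := by ring

theorem height_eq (t : ℚ) : (height t : ℚ) = (t ^ 2 + 1) * t.den ^ 2 := by
  have h1 : ((height t : ℕ) : ℤ) = t.num ^ 2 + (t.den : ℤ) ^ 2 := Pool.Agent.U80.WQ.ht_int t
  have h2 : ((height t : ℕ) : ℚ) = (t.num : ℚ) ^ 2 + (t.den : ℚ) ^ 2 := by exact_mod_cast h1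
  have h3 : (t.num : ℚ) = t * t.den := by rw [Rat.mul_den_eq_num]
  rw [h2, h3]
  ring

theorem disc_eq' {K : Type} [Field K] [NumberField K] (a b : 𝓞 K) :
    disc a b = FF (C a) (C b) (X 0) (X 1) := by
  unfold disc FF GG
  simp only [C_mul, C_pow]
  ring

theorem exists_bundle {K : Type} [Field K] [NumberField K] (k : ℕ) (a b : 𝓞 K) :
    ∃ S, IsBundle k a b 1 S := by
  have hhom : (disc a b).IsHomogeneous 6 := by
    have e : disc a b = C (-48 * b ^ 3) * X 0 ^ 6 + C (45 * (a * b ^ 2)) * (X 0 ^ 4 * X 1 ^ 2) +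
        C (45 * (a ^ 2 * b)) * (X 0 ^ 2 * X 1 ^ 4) + C (-48 * a ^ 3) * X 1 ^ 6 := by
      unfold disc
      simp only [C_mul, C_neg]
      have h48 : (C (48 : 𝓞 K) : MvPolynomial (Fin 2) (𝓞 K)) = 48 := map_ofNat _ _
      have h45 : (C (45 : 𝓞 K) : MvPolynomial (Fin 2) (𝓞 K)) = 45 := map_ofNat _ _
      rw [h48, h45]
      ring
    rw [e]
    have hX : ∀ (i : Fin 2) (n : ℕ), ((X i : MvPolynomial (Fin 2) (𝓞 K)) ^ n).IsHomogeneous n := by
      intro i n
      have := (isHomogeneous_X (𝓞 K) i).pow n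
      rwa [one_mul] at this
    have hC : ∀ (z : 𝓞 K) (P : MvPolynomial (Fin 2) (𝓞 K)), P.IsHomogeneous 6 →
        (C z * P).IsHomogeneous 6 := by
      intro z P hP
      have := (isHomogeneous_C (Fin 2) z).mul hP
      rwa [zero_add] at this
    refine (((hC _ _ (hX 0 6)).add (hC _ _ ?_)).add (hC _ _ ?_)).add (hC _ _ (hX 1 6))
    · exact (hX 0 4).mul (hX 1 2)
    · exact (hX 0 2).mul (hX 1 4)
  refine ⟨Matrix.diagonal fun i => if i = 0 then (-1) ^ (k + 1) * disc a b else 1,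
    Matrix.isSymm_diagonal _, ⟨fun i => if i = 0 then 6 else 0, fun i j => ?_, fun i j => ?_⟩,
    one_ne_zero, ?_⟩
  · simp only
    split_ifs <;> rfl
  · by_cases hij : i = j
    · subst hij
      rw [Matrix.diagonal_apply_eq]
      simp only
      split_ifs with h
      · have h1 : (((-1) ^ (k + 1) : MvPolynomial (Fin 2) (𝓞 K)) * disc a b).IsHomogeneous (0 + 6) := by
          refine IsHomogeneous.mul ?_ hhom
          have : ((-1) ^ (k + 1) : MvPolynomial (Fin 2) (𝓞 K)) = C ((-1) ^ (k + 1)) := by simp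
          rw [this]
          exact isHomogeneous_C _ _
        exact h1
      · exact isHomogeneous_one _ _
    · rw [Matrix.diagonal_apply_ne _ hij]
      exact isHomogeneous_zero _ _ _
  · rw [Matrix.det_diagonal, Finset.prod_ite_eq' Finset.univ (0 : Fin (2 * k + 2)),
      if_pos (Finset.mem_univ _)]
    simp

/-- the points over `K` of a twist by a square -/
theorem points_sq {K : Type} [Field K] {d t : K} (ht : t ≠ 0)
    (h : Finite (curve d).toAffine.Point) : Finite (curve (d * t ^ 2)).toAffine.Point := by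
  have S : Pool.Agent.TH841.NF.Sc (RingHom.id K) t⁻¹ (curve (d * t ^ 2)) (curve d) := by
    refine ⟨inv_ne_zero ht, ?_, ?_, ?_, ?_, ?_⟩
    · simp [curve]
    · simp [curve]
    · simp [curve]
    · simp only [curve, RingHom.id_apply]
      field_simp
    · simp only [curve, RingHom.id_apply]
      field_simp
  refine Finite.of_injective (Pool.Agent.TH841.NF.tF S) ?_
  have hu2 : (t⁻¹) ^ 2 ≠ 0 := pow_ne_zero _ S.hu
  have hu3 : (t⁻¹) ^ 3 ≠ 0 := pow_ne_zero _ S.hu
  intro P Q hPQ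
  rcases P with _ | ⟨x, y, hx⟩ <;> rcases Q with _ | ⟨x', y', hx'⟩
  · rfl
  · exact absurd hPQ.symm (WeierstrassCurve.Affine.Point.some_ne_zero _)
  · exact absurd hPQ (WeierstrassCurve.Affine.Point.some_ne_zero _)
  · have h' : (WeierstrassCurve.Affine.Point.some (x * t⁻¹ ^ 2) (y * t⁻¹ ^ 3)
        ((Pool.Agent.TH841.NF.ns_iff S x y).2 hx) : (curve d).toAffine.Point) =
          .some (x' * t⁻¹ ^ 2) (y' * t⁻¹ ^ 3) ((Pool.Agent.TH841.NF.ns_iff S x' y').2 hx') := hPQ
    rw [WeierstrassCurve.Affine.Point.some.injEq] at h'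
    obtain ⟨h1, h2⟩ := h'
    have e1 := mul_right_cancel₀ hu2 h1
    have e2 := mul_right_cancel₀ hu3 h2
    subst e1 e2
    rfl

theorem twist_facts {P T : Finset ℕ} (hP : ∀ q ∈ P, q.Prime ∧ q % 4 = 1) (hT : ∀ M ∈ T, Family M)
    (hC : Closed P T) {D : ℕ} (hD : Family D) (hG : Good T D)
    (K : IntermediateField ℚ ℂ) [NumberField K] (hK : K ≤ Tower P T D) {a : 𝓞 K}
    (ha : IsTwist T D a) : a ≠ 0 ∧ Finite (curve (a : K)).toAffine.Point ∧
      ∀ N : 𝓞 K, N ≠ 0 → 14 * a ∣ N → NonVan a N := by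
  obtain ⟨M, hM, t, ht, rfl⟩ := ha
  obtain ⟨hfin, -, Λ, l1, l2, -, l3⟩ := rz_all hP hT hC hD (fun M hM => (trivial_iff _).2 (hG M hM))
    hM K hK
  have hA : Adm (tw M D) := Pool.Agent.R413.SQ.Joint.adm_tw (hT M hM) hD
  have h3 : ((tw M D : ℕ) : 𝓞 K) ≠ 0 := by exact_mod_cast hA.1.ne_zero
  have htK : (t : K) ≠ 0 := by
    intro h
    exact ht (RingOfIntegers.coe_eq_zero_iff.1 h)
  refine ⟨mul_ne_zero h3 (pow_ne_zero 2 ht), ?_, fun N hN hd => nonVan_of hN hd l1 l2 l3⟩
  have e : ((((tw M D : ℕ) : 𝓞 K) * t ^ 2 : 𝓞 K) : K) = ((tw M D : ℕ) : K) * (t : K) ^ 2 := by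
    push_cast
    rfl
  rw [e]
  refine points_sq htK ?_
  rw [← curve_nat]
  exact hfin

theorem rankZero_of {K : Type} [Field K] [NumberField K] {k : ℕ} {a b e : 𝓞 K} (ha0 : a ≠ 0)
    (hb0 : b ≠ 0) (he : e ≠ 0) (ha : Finite (curve (a : K)).toAffine.Point)
    (hb : Finite (curve (b : K)).toAffine.Point)
    (hna : ∀ N : 𝓞 K, N ≠ 0 → 14 * a ∣ N → NonVan a N)
    (hnb : ∀ N : 𝓞 K, N ≠ 0 → 14 * b ∣ N → NonVan b N)
    {Fr : HeightOneSpectrum (𝓞 K) → Multiset ℂ → Prop}
    (hFr : ∀ v : HeightOneSpectrum (𝓞 K), 42 * a * b * e ∉ v.asIdeal →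
      Fr v (eig k (trK a v) (trK b v) (qv v))) : RankZero k Fr a b e := by
  have h42 : (42 : 𝓞 K) ≠ 0 := by norm_num
  have hN : 42 * a * b * e ≠ 0 := mul_ne_zero (mul_ne_zero (mul_ne_zero h42 ha0) hb0) he
  obtain ⟨L, L1, L2, L3⟩ := L_two k (a := a) (b := b) (N := 42 * a * b * e)
    ⟨21 * a * b * e, by ring⟩ (hna _ hN ⟨3 * b * e, by ring⟩) (hnb _ hN ⟨3 * a * e, by ring⟩)
  refine ⟨ha, hb, L, ⟨L1, fun v => eig k (trK a v) (trK b v) (qv v), ?_, L2⟩, ?_, L3⟩
  · intro v hv
    have h2 : (2 : 𝓞 K) ∉ v.asIdeal := by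
      intro h
      apply hv
      rw [show 42 * a * b * e = 2 * (21 * a * b * e) by ring]
      exact v.asIdeal.mul_mem_right _ h
    refine ⟨hFr v hv, ?_, norm_eig k (trK_bound h2 a) (trK_bound h2 b)⟩
    unfold eig
    simp
  · have e1 : Module.finrank ℤ (curve (a : K)).toAffine.Point = 0 := Pool.Agent.U80.MQ.finrank_fin
    have e2 : Module.finrank ℤ (curve (b : K)).toAffine.Point = 0 := Pool.Agent.U80.MQ.finrank_fin
    rw [e1, e2]
    exact (L1.analyticAt _).analyticOrderAt_eq_zero.2 L3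

/-- the places not dividing `42 a b e` -/
theorem not_mem {K : Type} [Field K] [NumberField K] {v : HeightOneSpectrum (𝓞 K)} {N : 𝓞 K}
    (hv : N ∉ v.asIdeal) {z : 𝓞 K} (hz : z ∣ N) : z ∉ v.asIdeal := by
  intro h
  obtain ⟨w, hw⟩ := hz
  apply hv
  rw [hw]
  exact v.asIdeal.mul_mem_right _ h

theorem bundle_frob {K : Type} [Field K] [NumberField K] {k : ℕ} {a b e : 𝓞 K}
    {S : Matrix (Fin (2 * k + 2)) (Fin (2 * k + 2)) (MvPolynomial (Fin 2) (𝓞 K))}
    (hS : IsBundle k a b e S) (v : HeightOneSpectrum (𝓞 K)) (hv : 42 * a * b * e ∉ v.asIdeal) :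
    BundleFrobenius k S v (eig k (trK a v) (trK b v) (qv v)) := by
  obtain ⟨hsym, -, he, hdet⟩ := hS
  rw [disc_eq'] at hdet
  have h2 := not_mem hv (z := 2) ⟨21 * a * b * e, by ring⟩
  intro F _ _ φ r hker hr
  letI : Field (𝓞 K ⧸ v.asIdeal) := Ideal.Quotient.field v.asIdeal
  haveI := fin_q v
  have hne : ∀ z : 𝓞 K, z ∉ v.asIdeal → Ideal.Quotient.mk v.asIdeal z ≠ 0 := by
    intro z hz h
    exact hz (Ideal.Quotient.eq_zero_iff_mem.1 h)
  have h := frob (Ideal.Quotient.mk v.asIdeal) (hne 2 h2)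
    (hne 3 (not_mem hv ⟨14 * a * b * e, by ring⟩)) (hne 7 (not_mem hv ⟨6 * a * b * e, by ring⟩)) k hsym
    hdet (hne a (not_mem hv ⟨42 * b * e, by ring⟩)) (hne b (not_mem hv ⟨42 * a * e, by ring⟩))
    (hne e (not_mem hv ⟨42 * a * b, by ring⟩)) (trK_TT h2 a) (trK_TT h2 b)
    (Ideal.Quotient.lift v.asIdeal φ (fun z hz => by
      rw [← RingHom.mem_ker, hker]; exact hz)) (r := r) (by rw [card_q]; exact hr)
  have hcomp : (Ideal.Quotient.lift v.asIdeal φ (fun z hz => by
      rw [← RingHom.mem_ker, hker]; exact hz)).comp (Ideal.Quotient.mk v.asIdeal) = φ := by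
    ext z
    simp
  rw [hcomp, card_q] at h
  exact h

theorem pencil_frob {K : Type} [Field K] [NumberField K] {a b e : 𝓞 K}
    {A B : Matrix (Fin 6) (Fin 6) (𝓞 K)}
    (hS : IsPencil a b e A B) (v : HeightOneSpectrum (𝓞 K)) (hv : 42 * a * b * e ∉ v.asIdeal) :
    IntersectionFrobenius A B v (eig 1 (trK a v) (trK b v) (qv v)) := by
  obtain ⟨hA, hB, he, hdet⟩ := hS
  rw [disc_eq'] at hdet
  have h2 := not_mem hv (z := 2) ⟨21 * a * b * e, by ring⟩
  intro F _ _ φ r hker hr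
  letI : Field (𝓞 K ⧸ v.asIdeal) := Ideal.Quotient.field v.asIdeal
  haveI := fin_q v
  have hne : ∀ z : 𝓞 K, z ∉ v.asIdeal → Ideal.Quotient.mk v.asIdeal z ≠ 0 := by
    intro z hz h
    exact hz (Ideal.Quotient.eq_zero_iff_mem.1 h)
  have h := frob_pencil (Ideal.Quotient.mk v.asIdeal) (hne 2 h2)
    (hne 3 (not_mem hv ⟨14 * a * b * e, by ring⟩)) (hne 7 (not_mem hv ⟨6 * a * b * e, by ring⟩)) hA hB
    hdet (hne a (not_mem hv ⟨42 * b * e, by ring⟩)) (hne b (not_mem hv ⟨42 * a * e, by ring⟩))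
    (hne e (not_mem hv ⟨42 * a * b, by ring⟩)) (trK_TT h2 a) (trK_TT h2 b)
    (Ideal.Quotient.lift v.asIdeal φ (fun z hz => by
      rw [← RingHom.mem_ker, hker]; exact hz)) (r := r) (by rw [card_q]; exact hr)
  have hcomp : (Ideal.Quotient.lift v.asIdeal φ (fun z hz => by
      rw [← RingHom.mem_ker, hker]; exact hz)).comp (Ideal.Quotient.mk v.asIdeal) = φ := by
    ext z
    simp
  rw [hcomp, card_q] at h
  exact h

/-- the pencils over the fields with `√-7` -/
theorem exists_pencil {K : Type} [Field K] [NumberField K] {M D : ℕ} (hM : Family M) (hD : Family D)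
    {r : 𝓞 K} (hr : r ^ 2 = -7) (t t' : 𝓞 K) : ∃ A B : Matrix (Fin 6) (Fin 6) (𝓞 K),
      IsPencil (((tw M D : ℕ) : 𝓞 K) * t ^ 2) (((tw M D : ℕ) : 𝓞 K) * t' ^ 2) 16 A B := by
  have hA : Adm (tw M D) := Pool.Agent.R413.SQ.Joint.adm_tw hM hD
  obtain ⟨u, w, huw⟩ : ∃ x y : ℕ, tw M D = x ^ 2 + y ^ 2 := by
    refine Nat.eq_sq_add_sq_of_isSquare_mod_neg_one
      ((ZMod.isSquare_neg_one_iff_forall_mem_primeFactors_mod_four_ne_three hA.1).2 ?_)
    intro q hq
    have := hA.2 q hq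
    omega
  obtain ⟨A, B, h1, h2, h3⟩ := pencil_ex hr (u : 𝓞 K) (w : 𝓞 K) t t'
  refine ⟨A, B, h1, h2, by norm_num, ?_⟩
  rw [h3, disc_eq', huw]
  push_cast
  rfl

end proof

/-- **Main theorem.** -/
theorem result :
    (0.4194 < c ∧ c < 0.4195) ∧
    (∀ P : Finset ℕ, (∀ q ∈ P, q.Prime ∧ q % 4 = 1) →
      Closed P (products P) ∧ (∀ M ∈ products P, Family M) ∧ (products P).card = 2 ^ P.card) ∧
    (∀ t : ℚ, (height t : ℚ) = (t ^ 2 + 1) * t.den ^ 2) ∧
    ∀ P T : Finset ℕ, (∀ q ∈ P, q.Prime ∧ q % 4 = 1) → (∀ M ∈ T, Family M) → Closed P T →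
      (∃ (κ : ℝ) (X₀ : ℕ), 0 < κ ∧ ∀ X : ℕ, X₀ ≤ X →
        κ * X / Real.sqrt (Real.log X) ≤ (num (Good T) X : ℝ)) ∧
      Tendsto (fun X : ℕ => (num (Good T) X : ℝ) / (num (fun _ => True) X : ℝ)) atTop
        (𝓝 (c ^ T.card)) ∧
      Tendsto (fun X : ℕ => ((Params (Good T) X).ncard : ℝ) / ((Params (fun _ => True) X).ncard : ℝ))
        atTop (𝓝 (c ^ T.card)) ∧
      (∃ (κ : ℝ) (X₀ : ℕ), 0 < κ ∧ ∀ X : ℕ, X₀ ≤ X → κ * ((Box (fun _ => True) X).ncard : ℝ) ≤
        ((Box (fun t => Family (height t) ∧ Good T (height t)) X).ncard : ℝ)) ∧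
      ∀ D : ℕ, Family D →
        {q : ℕ | TowerPrime T D q}.Infinite ∧ ¬ FiniteDimensional ℚ (Tower P T D) ∧
        ∀ (K : IntermediateField ℚ ℂ) [NumberField K],
          (∀ (k : ℕ) (a b : 𝓞 K), ∃ S, IsBundle k a b 1 S) ∧
          (∀ M ∈ T, ∀ t t' r : 𝓞 K, r ^ 2 = -7 →
            ∃ A B, IsPencil (((tw M D : ℕ) : 𝓞 K) * t ^ 2) (((tw M D : ℕ) : 𝓞 K) * t' ^ 2) 16 A B) ∧
          (Good T D → K ≤ Tower P T D → ∀ a b : 𝓞 K, IsTwist T D a → IsTwist T D b → ∀ e : 𝓞 K,
            (∀ (k : ℕ) (S : Matrix (Fin (2 * k + 2)) (Fin (2 * k + 2)) (MvPolynomial (Fin 2) (𝓞 K))),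
              IsBundle k a b e S → RankZero k (BundleFrobenius k S) a b e) ∧
            ∀ A B : Matrix (Fin 6) (Fin 6) (𝓞 K), IsPencil a b e A B →
              RankZero 1 (IntersectionFrobenius A B) a b e) := by
  have hcc : Pool.Agent.Y703.CQ.c2 = c := rfl
  have hc1 : 0.4194 < c := Pool.Agent.Y948.CQ.t_C2.2.2.2.1
  have hc2 : c < 0.4195 := Pool.Agent.Y948.CQ.t_C2.2.2.2.2
  refine ⟨⟨hc1, hc2⟩, fun P hP => Pool.Agent.U41.QK.prods_ok hP, height_eq, fun P T hP hT hC => ?_⟩
  have hlaw : Tendsto (fun X : ℕ => (num (Good T) X : ℝ) / (num (fun _ => True) X : ℝ)) atTop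
      (𝓝 (c ^ T.card)) := by
    have h := Pool.Agent.R413.SQ.Joint.law (T := T) (V := T) hT (Finset.Subset.refl T)
    rw [hcc, Finset.sdiff_self, Finset.card_empty, pow_zero, mul_one] at h
    have h1 := fun X => num_num (Q := Good T) (R := fun D => ∀ M ∈ T,
        ((Pool.Agent.Results.MP_4a9ea6_nt.TwoPartTwistsX49.mat
          (Pool.Agent.R413.SQ.Joint.tw M D)).det ≠ 0 ↔ M ∈ T))
        (fun D hD => good_det hT hD) X
    have h2 := fun X => num_num (Q := fun _ => True) (R := fun _ => True) (fun _ _ => Iff.rfl) X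
    simp only [h1, h2]
    exact h
  have hlow : ∃ (κ : ℝ) (X₀ : ℕ), 0 < κ ∧ ∀ X : ℕ, X₀ ≤ X →
      κ * X / Real.sqrt (Real.log X) ≤ (num (Good T) X : ℝ) := by
    have h := Pool.Agent.R413.SQ.Joint.law (T := T) (V := T) hT (Finset.Subset.refl T)
    rw [hcc, Finset.sdiff_self, Finset.card_empty, pow_zero, mul_one] at h
    obtain ⟨κ, X₀, h1, h2⟩ := Pool.Agent.R413.SQ.Joint.low_of
      (pow_pos (by linarith : (0 : ℝ) < c) T.card) h
    refine ⟨κ, X₀, h1, fun X hX => ?_⟩
    rw [num_num (Q := Good T) (R := fun D => ∀ M ∈ T,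
        ((Pool.Agent.Results.MP_4a9ea6_nt.TwoPartTwistsX49.mat
          (Pool.Agent.R413.SQ.Joint.tw M D)).det ≠ 0 ↔ M ∈ T))
        (fun D hD => good_det hT hD) X]
    exact h2 X hX
  refine ⟨hlow, hlaw, law_t hT, pos_t hT, fun D hD => ⟨(Pool.Agent.U41.QK.TF_inf P hT hD).1,
    (Pool.Agent.U41.QK.TF_inf P hT hD).2, ?_⟩⟩
  intro K _
  refine ⟨fun k a b => exists_bundle k a b, fun M hM t t' r hr => exists_pencil (hT M hM) hD hr t t', ?_⟩
  intro hG hK a b ha hb e
  obtain ⟨a0, a1, a2⟩ := twist_facts hP hT hC hD hG K hK ha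
  obtain ⟨b0, b1, b2⟩ := twist_facts hP hT hC hD hG K hK hb
  refine ⟨fun k S hS => ?_, fun A B hS => ?_⟩
  · exact rankZero_of a0 b0 hS.2.2.1 a1 b1 a2 b2 (bundle_frob hS)
  · exact rankZero_of a0 b0 hS.2.2.1 a1 b1 a2 b2 (pencil_frob hS)

end Pool.Agent.Results.MP_6dc9d1_nt.QuadricBundlesOverTowers
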